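import Pool.Agent.W279.TriR.Two

/-!
# The closure of an orbit fills a segment (helper279)
-/

set_option autoImplicit false

namespace Pool.Agent.W279.TriR

open Pool.Agent.W279.Tri

section orb

variable {K : Type*} [Field K] {g : Fin 3 → Fin 3 → K} {U V : ℕ → Fin 2 → K}

lemma orb_shift (h : Orb g U V) (n : ℕ) : Orb g (fun i => U (n + i)) (fun i => V (n + i)) where
  hU i := h.hU _
  hV i := h.hV _
  hu i j := h.hu _ j
  hv i j := h.hv _ j
  hdu i j hij := h.hdu _ _ (by omega)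
  hdv i j hij := h.hdv _ _ (by omega)

lemma RO.of_orb (h : Orb g U V) (σ : K →+* ℝ) (hsm : Sm (fun j k => σ (g j k))) :
    RO (fun j k => σ (g j k)) (fun n a => σ (U n a)) (fun n a => σ (V n a)) where
  hu0 n := map_ne σ (h.hU n)
  hv0 n := map_ne σ (h.hV n)
  G0 n := by rw [G_map, h.G_eq_zero, map_zero]
  hdu n m hnm := by
    rw [br_map]
    exact (map_ne_zero σ).2 (h.hdu n m hnm)
  hdv n m hnm := by
    rw [br_map]
    exact (map_ne_zero σ).2 (h.hdv n m hnm)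
  inv n m hm := by
    refine Rr_shift (u := fun n a => σ (U n a)) (v := fun n a => σ (V n a)) ?_ ?_ ?_ ?_ n hm
    · intro n w
      refine G_of_pr (fun j => ?_) w
      rw [lf_map, pr_map, h.hu n j]
    · intro n w
      rw [G_swap]
      refine G_of_pr (fun j => ?_) w
      rw [lf_map σ (fun j k => g k j), pr_map, h.hv n j]
    · intro n m hnm
      rw [br_map]
      exact (map_ne_zero σ).2 (h.hdu n m hnm)
    · intro n m hnm
      rw [br_map]
      exact (map_ne_zero σ).2 (h.hdv n m hnm)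
  recu n ε hε M := (orb_shift h n).recurr σ hsm hε M

lemma RO.of_orb2 (h : Orb2 g U V) (σ : K →+* ℝ) (hsm : Sm (fun j k => σ (g j k))) :
    RO (fun j k => σ (g j k)) (fun n a => σ (U n a)) (fun n a => σ (V n a)) := by
  rcases h with h | h
  · exact RO.of_orb h σ hsm
  · exact (RO.of_orb h σ hsm.transpose).transpose

end orb

lemma co_fm (g : Fin 3 → Fin 3 → ℝ) (ξ ξ' η η' : Fin 2 → ℝ) (k : Fin 3) (t : ℝ) :
    co (fm g ξ ξ' η η') k t = fr g (ξ + t • ξ') η η' k := by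
  fin_cases k
  · simp only [co, fm, fr, G, Pv, mon, Fin.sum_univ_three, Pi.add_apply, Pi.smul_apply,
      smul_eq_mul, Matrix.cons_val_zero, Matrix.cons_val_one, Matrix.cons_val, Fin.zero_eta]
    ring
  · simp only [co, fm, fr, G, Pv, mon, Fin.sum_univ_three, Pi.add_apply, Pi.smul_apply,
      smul_eq_mul, Matrix.cons_val_zero, Matrix.cons_val_one, Matrix.cons_val, Fin.mk_one]
    ring
  · simp only [co, fm, fr, G, Pv, mon, Fin.sum_univ_three, Pi.add_apply, Pi.smul_apply,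
      smul_eq_mul, Matrix.cons_val_zero, Matrix.cons_val_one, Matrix.cons_val,
      Fin.reduceFinMk]
    ring

lemma Pv_frame (g : Fin 3 → Fin 3 → ℝ) (ξ ξ' η η' : Fin 2 → ℝ) (y z : ℝ) :
    Pv g (ξ + y • ξ') (η + z • η') η' = hh (fm g ξ ξ' η η') y z z := by
  have e1 : η + z • η' + η' = η + (z + 1) • η' := by
    funext i
    simp only [Pi.add_apply, Pi.smul_apply, smul_eq_mul]
    ring
  have e2 : G g (ξ + y • ξ') η' = co (fm g ξ ξ' η η') 2 y := by
    rw [co_fm]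
    rfl
  unfold Pv
  rw [e1, G_frame, G_frame, e2]
  unfold ff hh
  ring

lemma at_shift {ξ ξ' u : Fin 2 → ℝ} {y t : ℝ} : At (ξ + y • ξ') ξ' u t ↔ At ξ ξ' u (y + t) := by
  unfold At
  have : ξ + y • ξ' + t • ξ' = ξ + (y + t) • ξ' := by
    funext i
    simp only [Pi.add_apply, Pi.smul_apply, smul_eq_mul]
    ring
  rw [this]

lemma at_shift_neg {ξ ξ' u : Fin 2 → ℝ} {y t : ℝ} :
    At (ξ + y • ξ') (-ξ') u t ↔ At ξ ξ' u (y - t) := by
  unfold At
  have : ξ + y • ξ' + t • -ξ' = ξ + (y - t) • ξ' := by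
    funext i
    simp only [Pi.add_apply, Pi.smul_apply, smul_eq_mul, Pi.neg_apply]
    ring
  rw [this]

lemma br_add_smul (ξ ξ' : Fin 2 → ℝ) (y : ℝ) : br (ξ + y • ξ') ξ' = br ξ ξ' := by
  simp only [br, Pi.add_apply, Pi.smul_apply, smul_eq_mul]
  ring

lemma br_add_smul_neg (ξ ξ' : Fin 2 → ℝ) (y : ℝ) : br (ξ + y • ξ') (-ξ') = -br ξ ξ' := by
  simp only [br, Pi.add_apply, Pi.smul_apply, smul_eq_mul, Pi.neg_apply]
  ring

lemma continuous_ff (m : Fin 3 → Fin 3 → ℝ) : Continuous fun p : ℝ × ℝ => ff m p.1 p.2 := by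
  unfold ff co; fun_prop

/-- a closed set without gaps -/
lemma fill_real {S : Set ℝ} (hS : IsClosed S) {a b y₀ : ℝ} (h0 : y₀ ∈ S) (ha : a < y₀)
    (hb : y₀ < b)
    (hr : ∀ y ∈ S, a < y → y < b → ∀ ε : ℝ, 0 < ε → ∃ y' ∈ S, y < y' ∧ y' ≤ y + ε)
    (hl : ∀ y ∈ S, a < y → y < b → ∀ ε : ℝ, 0 < ε → ∃ y' ∈ S, y' < y ∧ y - ε ≤ y') :
    Set.Icc a b ⊆ S := by
  have h1 : Set.Icc y₀ b ⊆ S := by
    refine IsClosed.Icc_subset_of_forall_exists_gt (hS.inter isClosed_Icc) h0 ?_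
    rintro x ⟨hx, hx1, hx2⟩ y hy
    obtain ⟨y', hy', h3, h4⟩ := hr x hx (by linarith) hx2 (y - x) (sub_pos.2 hy)
    exact ⟨y', hy', h3, by linarith⟩
  have h2 : Set.Icc (-y₀) (-a) ⊆ (fun x => -x) ⁻¹' S := by
    refine IsClosed.Icc_subset_of_forall_exists_gt
      ((hS.preimage continuous_neg).inter isClosed_Icc) ?_ ?_
    · simpa using h0
    rintro x ⟨hx, hx1, hx2⟩ y hy
    simp only [Set.mem_preimage] at hx
    obtain ⟨y', hy', h3, h4⟩ := hl (-x) hx (by linarith) (by linarith) (y - x) (sub_pos.2 hy)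
    exact ⟨-y', by simpa using hy', by simp only [Set.mem_Ioc]; constructor <;> linarith⟩
  intro y hy
  rcases le_total y₀ y with h | h
  · exact h1 ⟨h, hy.2⟩
  · have := h2 (show -y ∈ _ from ⟨by linarith, by linarith [hy.1]⟩)
    simpa using this

/-- **the orbit fills the segment** -/
theorem RO.fill {g : Fin 3 → Fin 3 → ℝ} {u v : ℕ → Fin 2 → ℝ} (h : RO g u v)
    {ξ ξ' η η' : Fin 2 → ℝ} (hξ : br ξ ξ' ≠ 0) (hη : br η η' ≠ 0) {δ δ' : ℝ}
    (hδ' : 0 < δ')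
    (hroot : ∀ y z : ℝ, |y| ≤ δ → |z| ≤ δ' → ff (fm g ξ ξ' η η') y z = 0 →
      |z| ≤ δ' / 2 ∧ hh (fm g ξ ξ' η η') y z z ≠ 0)
    {n₀ : ℕ} {y₀ z₀ : ℝ} (h₀ : Near ξ ξ' η η' u v n₀ y₀ z₀) (hy₀ : |y₀| < δ) (hz₀ : |z₀| ≤ δ')
    {y : ℝ} (hy : |y| ≤ δ) {ε : ℝ} (hε : 0 < ε) :
    ∃ n y' z', Near ξ ξ' η η' u v n y' z' ∧ |y' - y| ≤ ε ∧ |z'| ≤ δ' := by
  set m := fm g ξ ξ' η η' with hm
  set O : Set (ℝ × ℝ) := {p | ∃ n, Near ξ ξ' η η' u v n p.1 p.2} with hO
  have hOf : ∀ p ∈ closure O, ff m p.1 p.2 = 0 := by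
    have h1 : IsClosed {p : ℝ × ℝ | ff m p.1 p.2 = 0} :=
      isClosed_eq (continuous_ff m) continuous_const
    have h2 : O ⊆ {p : ℝ × ℝ | ff m p.1 p.2 = 0} := by
      rintro p ⟨n, hn⟩
      exact Near.ff h hn
    intro p hp
    exact closure_minimal h2 h1 hp
  set T : Set (ℝ × ℝ) := closure O ∩ (Set.Icc (-δ) δ ×ˢ Set.Icc (-δ') δ') with hT
  have hTc : IsCompact T :=
    (isCompact_Icc.prod isCompact_Icc).inter_left isClosed_closure
  set S : Set ℝ := Prod.fst '' T with hS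
  have hSc : IsClosed S := (hTc.image continuous_fst).isClosed
  have mem_S : ∀ n y' z', Near ξ ξ' η η' u v n y' z' → |y'| ≤ δ → |z'| ≤ δ' → y' ∈ S := by
    intro n y' z' hn h1 h2
    exact ⟨(y', z'), ⟨subset_closure ⟨n, hn⟩, abs_le.1 h1, abs_le.1 h2⟩, rfl⟩
  -- approximation
  have appr : ∀ y ∈ S, ∃ z, |z| ≤ δ' / 2 ∧ ff m y z = 0 ∧ hh m y z z ≠ 0 ∧
      ∀ ε : ℝ, 0 < ε → ∃ n y' z', Near ξ ξ' η η' u v n y' z' ∧ |y' - y| ≤ ε ∧ |z' - z| ≤ ε := by
    rintro y ⟨⟨y1, z⟩, ⟨hcl, hy1, hz1⟩, rfl⟩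
    have hf := hOf _ hcl
    obtain ⟨r1, r2⟩ := hroot y1 z (abs_le.2 hy1) (abs_le.2 hz1) hf
    refine ⟨z, r1, hf, r2, fun ε hε => ?_⟩
    rw [Metric.mem_closure_iff] at hcl
    obtain ⟨⟨y', z'⟩, ⟨n, hn⟩, hd⟩ := hcl ε hε
    rw [dist_comm, Prod.dist_eq, max_lt_iff, Real.dist_eq, Real.dist_eq] at hd
    exact ⟨n, y', z', hn, hd.1.le, hd.2.le⟩
  -- one step
  have step : ∀ y ∈ S, -δ < y → y < δ → ∀ ε : ℝ, 0 < ε → ∀ ζ : Fin 2 → ℝ, ∀ τ : ℝ,
      |τ| = 1 → br (ξ + y • ξ') ζ ≠ 0 → (∀ u t, At (ξ + y • ξ') ζ u t ↔ At ξ ξ' u (y + τ * t)) →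
      ∃ t, 0 < t ∧ t ≤ ε ∧ y + τ * t ∈ S := by
    intro y hy hy1 hy2 ε hε ζ τ hτ hbr hAt
    obtain ⟨z, hz1, hz2, hz3, hz4⟩ := appr y hy
    have hη' : br (η + z • η') η' ≠ 0 := by rw [br_add_smul]; exact hη
    obtain ⟨n, t, s, hn, ht0, ht, hs⟩ := h.two_sided (ξ := ξ + y • ξ') (ξ' := ζ)
      (η := η + z • η') (η' := η') hbr hη' (by rw [G_frame]; exact hz2)
      (by rw [Pv_frame]; exact hz3) (by
        intro ε hε
        obtain ⟨n, y', z', hn, h1, h2⟩ := hz4 ε hε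
        have hτ2 : τ * τ = 1 := by
          have := congrArg (fun x => x ^ 2) hτ
          simp only [sq_abs] at this
          linarith [this, sq τ]
        refine ⟨n, τ * (y' - y), z' - z, ⟨?_, ?_⟩, ?_, h2⟩
        · rw [hAt]
          have : y + τ * (τ * (y' - y)) = y' := by
            rw [← mul_assoc, hτ2]; ring
          rw [this]
          exact hn.1
        · rw [at_shift]
          have : z + (z' - z) = z' := by ring
          rw [this]
          exact hn.2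
        · rw [abs_mul, hτ, one_mul]
          exact h1)
      (ε₀ := min (min ε (δ' / 2)) (min (δ - y) (y + δ)))
      (lt_min (lt_min hε (by linarith)) (lt_min (by linarith) (by linarith)))
    have a1 := ht.trans ((min_le_left _ _).trans (min_le_left _ _))
    have a2 := ht.trans ((min_le_right _ _).trans (min_le_left _ _))
    have a3 := ht.trans ((min_le_right _ _).trans (min_le_right _ _))
    have a4 := hs.trans ((min_le_left _ _).trans (min_le_right _ _))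
    refine ⟨t, ht0, a1, mem_S n (y + τ * t) (z + s) ⟨(hAt _ _).1 hn.1, at_shift.1 hn.2⟩ ?_ ?_⟩
    · have hτt : |τ * t| = t := by rw [abs_mul, hτ, one_mul, abs_of_pos ht0]
      have b1 := (abs_le.1 hτt.le)
      rw [abs_le]
      constructor <;> linarith [b1.1, b1.2]
    · have := abs_add_le z s
      linarith
  have hsub : Set.Icc (-δ) δ ⊆ S := by
    refine fill_real hSc (mem_S n₀ y₀ z₀ h₀ hy₀.le hz₀) (abs_lt.1 hy₀).1 (abs_lt.1 hy₀).2 ?_ ?_
    · intro y hy h1 h2 ε hε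
      obtain ⟨t, ht0, ht, hS⟩ := step y hy h1 h2 ε hε ξ' 1 (by simp)
        (by rw [br_add_smul]; exact hξ) (fun u t => by rw [at_shift, one_mul])
      exact ⟨_, hS, by linarith, by linarith⟩
    · intro y hy h1 h2 ε hε
      obtain ⟨t, ht0, ht, hS⟩ := step y hy h1 h2 ε hε (-ξ') (-1) (by simp)
        (by rw [br_add_smul_neg]; exact neg_ne_zero.2 hξ)
        (fun u t => by rw [at_shift_neg, neg_one_mul, sub_eq_add_neg])
      exact ⟨_, hS, by linarith, by linarith⟩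
  obtain ⟨z, hz1, -, -, hz4⟩ := appr y (hsub (abs_le.1 hy))
  obtain ⟨n, y', z', hn, h1, h2⟩ := hz4 (min ε (δ' / 2)) (lt_min hε (by linarith))
  refine ⟨n, y', z', hn, h1.trans (min_le_left _ _), ?_⟩
  have h3 := h2.trans (min_le_right _ _)
  have := abs_add_le (z' - z) z
  rw [sub_add_cancel] at this
  linarith

end Pool.Agent.W279.TriR
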