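import Pool.Agent.W279.TriR.Frame

/-!
# The closure of an orbit has no gap (helper279)
-/

set_option autoImplicit false

namespace Pool.Agent.W279.TriR

open Pool.Agent.W279.Tri

/-- an orbit on a real curve of bidegree (2,2) -/
structure RO (g : Fin 3 → Fin 3 → ℝ) (u v : ℕ → Fin 2 → ℝ) : Prop where
  hu0 : ∀ n, u n ≠ 0
  hv0 : ∀ n, v n ≠ 0
  G0 : ∀ n, G g (u n) (v n) = 0
  hdu : ∀ n m, n ≠ m → br (u n) (u m) ≠ 0
  hdv : ∀ n m, n ≠ m → br (v n) (v m) ≠ 0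
  inv : ∀ n m, m ≠ 0 → Rr g (u n) (v n) (u (n + m)) (v (n + m)) = Rr g (u 0) (v 0) (u m) (v m)
  recu : ∀ n (ε : ℝ), 0 < ε → ∀ M : ℕ, ∃ m, M ≤ m ∧
    ‖br (u n) (u (n + m))‖ ≤ ε * (‖u n‖ * ‖u (n + m)‖) ∧
    ‖br (v n) (v (n + m))‖ ≤ ε * (‖v n‖ * ‖v (n + m)‖)

lemma RO.transpose {g : Fin 3 → Fin 3 → ℝ} {u v : ℕ → Fin 2 → ℝ} (h : RO g u v) :
    RO (fun j k => g k j) v u where
  hu0 := h.hv0
  hv0 := h.hu0
  G0 n := by rw [← G_swap]; exact h.G0 n
  hdu := h.hdv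
  hdv := h.hdu
  inv n m hm := by
    rw [Rr_transpose g (u n), Rr_transpose g (u 0)]
    exact h.inv n m hm
  recu n ε hε M := by
    obtain ⟨m, hm, h1, h2⟩ := h.recu n ε hε M
    exact ⟨m, hm, h2, h1⟩

/-- near the point of the frame -/
def Near (ξ ξ' η η' : Fin 2 → ℝ) (u v : ℕ → Fin 2 → ℝ) (n : ℕ) (t s : ℝ) : Prop :=
  At ξ ξ' (u n) t ∧ At η η' (v n) s

section main

variable {g : Fin 3 → Fin 3 → ℝ} {u v : ℕ → Fin 2 → ℝ} {ξ ξ' η η' : Fin 2 → ℝ}

lemma RO.inv' (h : RO g u v) (n : ℕ) {m : ℕ} (hm : m ≠ 0) (n' : ℕ) :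
    Rr g (u n) (v n) (u (n + m)) (v (n + m)) = Rr g (u n') (v n') (u (n' + m)) (v (n' + m)) := by
  rw [h.inv n m hm, h.inv n' m hm]

/-- moving along small translations -/
lemma RO.close (h : RO g u v) (hξ : br ξ ξ' ≠ 0) (hη : br η η' ≠ 0) :
    ∃ D : ℝ, 0 < D ∧ ∀ (n m : ℕ) (t s : ℝ), m ≠ 0 → Near ξ ξ' η η' u v n t s → |t| ≤ 1 →
      |s| ≤ 1 → ∀ ε : ℝ, 0 < ε → ε ≤ 1 →
      (D / ε) ^ 2 ≤ ‖Rr g (u n) (v n) (u (n + m)) (v (n + m))‖ →
        ∃ t' s', Near ξ ξ' η η' u v (n + m) t' s' ∧ |t' - t| ≤ ε ∧ |s' - s| ≤ ε := by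
  obtain ⟨C, hC, hup⟩ := Rr_upper g
  obtain ⟨A, hA, hA'⟩ := coord_close hξ
  obtain ⟨B, hB, hB'⟩ := coord_close hη
  refine ⟨C * (A + B), by positivity, fun n m t s hm hn ht hs ε hε hε1 hR => ?_⟩
  have hne : n ≠ n + m := by omega
  set δ := ε / (A + B) with hδ
  have hδ0 : 0 < δ := by positivity
  have e1 : C * (A + B) / ε = C / δ := by rw [hδ]; field_simp
  rw [e1] at hR
  obtain ⟨h1, h2⟩ := hup _ _ _ _ (h.hu0 n) (h.hv0 n) (h.hu0 (n + m)) (h.hv0 (n + m)) (h.G0 n)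
    (h.G0 (n + m)) (h.hdu _ _ hne) (h.hdv _ _ hne) δ hδ0 hR
  have hAδ : A * δ ≤ ε := by
    rw [hδ, mul_div_assoc', div_le_iff₀ (by positivity)]
    nlinarith
  have hBδ : B * δ ≤ ε := by
    rw [hδ, mul_div_assoc', div_le_iff₀ (by positivity)]
    nlinarith
  obtain ⟨t', ht', ht''⟩ := hA' _ _ _ hn.1 ht (h.hu0 (n + m)) δ hδ0 (hAδ.trans hε1) h1
  obtain ⟨s', hs', hs''⟩ := hB' _ _ _ hn.2 hs (h.hv0 (n + m)) δ hδ0 (hBδ.trans hε1) h2
  exact ⟨t', s', ⟨ht', hs'⟩, ht''.trans hAδ, hs''.trans hBδ⟩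

/-- the recurrence in the coordinates -/
lemma RO.close_rec (h : RO g u v) (hξ : br ξ ξ' ≠ 0) (hη : br η η' ≠ 0) {n : ℕ} {t s : ℝ}
    (hn : Near ξ ξ' η η' u v n t s) (ht : |t| ≤ 1) (hs : |s| ≤ 1) {ε : ℝ} (hε : 0 < ε)
    (hε1 : ε ≤ 1) (M : ℕ) :
    ∃ m t' s', M ≤ m ∧ Near ξ ξ' η η' u v (n + m) t' s' ∧ |t' - t| ≤ ε ∧ |s' - s| ≤ ε := by
  obtain ⟨A, hA, hA'⟩ := coord_close hξ
  obtain ⟨B, hB, hB'⟩ := coord_close hη
  set δ := ε / (A + B) with hδ
  have hδ0 : 0 < δ := by positivity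
  have hAδ : A * δ ≤ ε := by
    rw [hδ, mul_div_assoc', div_le_iff₀ (by positivity)]
    nlinarith
  have hBδ : B * δ ≤ ε := by
    rw [hδ, mul_div_assoc', div_le_iff₀ (by positivity)]
    nlinarith
  obtain ⟨m, hm, h1, h2⟩ := h.recu n δ hδ0 M
  obtain ⟨t', ht', ht''⟩ := hA' _ _ _ hn.1 ht (h.hu0 (n + m)) δ hδ0 (hAδ.trans hε1) h1
  obtain ⟨s', hs', hs''⟩ := hB' _ _ _ hn.2 hs (h.hv0 (n + m)) δ hδ0 (hBδ.trans hε1) h2
  exact ⟨m, t', s', hm, ⟨ht', hs'⟩, ht''.trans hAδ, hs''.trans hBδ⟩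

lemma Near.ff (h : RO g u v) {n : ℕ} {t s : ℝ} (hn : Near ξ ξ' η η' u v n t s) :
    ff (fm g ξ ξ' η η') t s = 0 := ff_of_At hn.1 hn.2 (h.G0 n)

/-- **no gap** -/
theorem RO.two_sided (h : RO g u v) (hξ : br ξ ξ' ≠ 0) (hη : br η η' ≠ 0)
    (h0 : G g ξ η = 0) (h1 : Pv g ξ η η' ≠ 0)
    (hcl : ∀ ε : ℝ, 0 < ε → ∃ n t s, Near ξ ξ' η η' u v n t s ∧ |t| ≤ ε ∧ |s| ≤ ε)
    {ε₀ : ℝ} (hε₀ : 0 < ε₀) :
    ∃ n t s, Near ξ ξ' η η' u v n t s ∧ 0 < t ∧ t ≤ ε₀ ∧ |s| ≤ ε₀ := by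
  by_contra hgap
  push Not at hgap
  set m := fm g ξ ξ' η η' with hmdef
  have hm01 : m 0 1 ≠ 0 := h1
  have hm00 : ff m 0 0 = 0 := by
    have := G_frame g ξ ξ' η η' 0 0
    rw [zero_smul, zero_smul, add_zero, add_zero, h0] at this
    exact this.symm
  obtain ⟨r, c, M, hbox⟩ := exists_box hm01
  obtain ⟨D, hD, hclose⟩ := h.close hξ hη
  have hr := hbox.hr
  have hr1 := hbox.hr1
  have hc := hbox.hc
  have hM := hbox.hM
  set ρ := min r ε₀ with hρ
  have hρ0 : 0 < ρ := by positivity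
  have hρr : ρ ≤ r := min_le_left _ _
  have hρε : ρ ≤ ε₀ := min_le_right _ _
  set r1 := ρ / 2 with hr1def
  have hr10 : 0 < r1 := by positivity
  set β := br ξ ξ' * br η η' with hβ
  have hβ0 : 0 < |β| := abs_pos.2 (mul_ne_zero hξ hη)
  set r2 := r1 / (M + 1) with hr2def
  have hr20 : 0 < r2 := by positivity
  have hr21 : r2 ≤ r1 := by
    rw [hr2def, div_le_iff₀ (by positivity)]
    nlinarith
  have hMr2 : M * r2 ≤ r1 := by
    rw [hr2def, mul_div_assoc', div_le_iff₀ (by positivity)]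
    nlinarith
  set r3 := Real.sqrt c * r1 / (|β| * D) with hr3def
  have hsc : 0 < Real.sqrt c := Real.sqrt_pos.2 hc
  have hr30 : 0 < r3 := by positivity
  set r4 := min r2 (r3 / 2) with hr4def
  have hr40 : 0 < r4 := by positivity
  have hr42 : r4 ≤ r2 := min_le_left _ _
  have hr43 : r4 ≤ r3 / 2 := min_le_right _ _
  have hr41 : r4 ≤ r1 := hr42.trans hr21
  have hr1ρ : r1 ≤ ρ := by rw [hr1def]; linarith
  -- points near the origin, arbitrarily late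
  have late : ∀ (ε : ℝ) (N : ℕ), 0 < ε → ε ≤ 1 → ∃ n t s, N ≤ n ∧ Near ξ ξ' η η' u v n t s ∧
      |t| ≤ ε ∧ |s| ≤ ε := by
    intro ε N hε hε1
    obtain ⟨n, t, s, hn, ht, hs⟩ := hcl (ε / 2) (by linarith)
    obtain ⟨k, t', s', hk, hn', ht', hs'⟩ := h.close_rec hξ hη hn (by linarith) (by linarith)
      (show 0 < ε / 2 by linarith) (by linarith) N
    refine ⟨n + k, t', s', by omega, hn', ?_, ?_⟩
    · have := abs_add_le (t' - t) t
      rw [sub_add_cancel] at this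
      linarith
    · have := abs_add_le (s' - s) s
      rw [sub_add_cancel] at this
      linarith
  have nonpos : ∀ n t s, Near ξ ξ' η η' u v n t s → |t| ≤ ρ → |s| ≤ ρ → t ≤ 0 := by
    intro n t s hn ht hs
    by_contra hcon
    push Not at hcon
    have := hgap n t s hn hcon ((le_abs_self t).trans (ht.trans hρε))
    linarith [hs.trans hρε]
  -- the initial pair
  have init : ∃ n t s, Near ξ ξ' η η' u v n t s ∧ |t| ≤ r4 ∧ |s| ≤ r4 ∧ t < 0 := by
    have hr4le : r4 ≤ 1 := by linarith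
    obtain ⟨n, t, s, -, hn, ht, hs⟩ := late r4 0 hr40 hr4le
    have ht0 := nonpos n t s hn (by linarith) (by linarith)
    rcases ht0.lt_or_eq with hlt | heq
    · exact ⟨n, t, s, hn, ht, hs, hlt⟩
    · obtain ⟨n', t', s', hn1, hn', ht', hs'⟩ := late r4 (n + 1) hr40 hr4le
      have ht0' := nonpos n' t' s' hn' (by linarith) (by linarith)
      refine ⟨n', t', s', hn', ht', hs', lt_of_le_of_ne ht0' ?_⟩
      intro h0
      have := hn.1.ne hn'.1 (h.hdu n n' (by omega))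
      apply this
      rw [h0, heq]
  obtain ⟨n₁, t₁, s₁, hn₁, ht₁, hs₁, ht₁0⟩ := init
  obtain ⟨n₂, t₂, s₂, hn₂1, hn₂, ht₂, hs₂⟩ := late (min r4 (|t₁| / 2)) (n₁ + 1)
    (lt_min hr40 (by have := abs_pos.2 ht₁0.ne; linarith))
    ((min_le_left _ _).trans (by linarith))
  have ht₂4 : |t₂| ≤ r4 := ht₂.trans (min_le_left _ _)
  have hs₂4 : |s₂| ≤ r4 := hs₂.trans (min_le_left _ _)
  have ht₂0 := nonpos n₂ t₂ s₂ hn₂ (by linarith) (by linarith)
  have ht12 : t₁ < t₂ := by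
    have a1 : |t₂| ≤ |t₁| / 2 := ht₂.trans (min_le_right _ _)
    rw [abs_of_nonpos ht₂0, abs_of_neg ht₁0] at a1
    linarith
  obtain ⟨q, rfl⟩ := Nat.exists_eq_add_of_le hn₂1
  set w := 1 + q with hw
  have hnw : n₁ + 1 + q = n₁ + w := by rw [hw]; ring
  rw [hnw] at hn₂
  have hw0 : w ≠ 0 := by omega
  set R := Rr g (u n₁) (v n₁) (u (n₁ + w)) (v (n₁ + w)) with hR
  have hRn : ∀ n, Rr g (u n) (v n) (u (n + w)) (v (n + w)) = R := fun n => h.inv' n hw0 n₁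
  -- the relation
  have rel : ∀ n t s t' s', Near ξ ξ' η η' u v n t s → Near ξ ξ' η η' u v (n + w) t' s' →
      R * ((t - t') ^ 2 * β ^ 2) = -Ph m t s t' s' := by
    intro n t s t' s' hn hn'
    rw [← hRn n]
    exact Rr_frame hn.1 hn.2 hn'.1 hn'.2 (h.G0 _) (h.G0 _) (h.hdu _ _ (by omega))
      (h.hdv _ _ (by omega))
  have hRbig : (D / r1) ^ 2 ≤ ‖R‖ := by
    have e1 := rel n₁ t₁ s₁ t₂ s₂ hn₁ hn₂
    have e2 := hbox.pos t₁ s₁ t₂ s₂ (by linarith) (by linarith) (by linarith) (by linarith)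
    have e3 := congrArg abs e1
    rw [abs_neg, abs_of_pos (lt_of_lt_of_le hc e2), abs_mul, abs_of_nonneg
      (show 0 ≤ (t₁ - t₂) ^ 2 * β ^ 2 by positivity)] at e3
    rw [← e3] at e2
    rw [Real.norm_eq_abs, div_pow, div_le_iff₀ (by positivity)]
    have e4 : (t₁ - t₂) ^ 2 ≤ r3 ^ 2 := by
      apply sq_le_sq'
      · have := (abs_le.1 ht₁).1
        linarith
      · linarith
    have e5 : r3 ^ 2 * (β ^ 2 * D ^ 2) = c * r1 ^ 2 := by
      rw [hr3def, div_pow, mul_pow, mul_pow, Real.sq_sqrt hc.le, sq_abs]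
      have hβne : β ≠ 0 := abs_pos.1 hβ0
      field_simp
    have e6 : c * D ^ 2 ≤ c * (|R| * r1 ^ 2) := by
      calc c * D ^ 2 ≤ (|R| * ((t₁ - t₂) ^ 2 * β ^ 2)) * D ^ 2 := by gcongr
        _ ≤ (|R| * (r3 ^ 2 * β ^ 2)) * D ^ 2 := by gcongr
        _ = |R| * (r3 ^ 2 * (β ^ 2 * D ^ 2)) := by ring
        _ = c * (|R| * r1 ^ 2) := by rw [e5]; ring
    exact le_of_mul_le_mul_left e6 hc
  have hR0 : 0 < |R| := by
    rw [Real.norm_eq_abs] at hRbig
    exact lt_of_lt_of_le (by positivity) hRbig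
  -- the minimal step
  set d := Real.sqrt (c / (|R| * β ^ 2)) with hd
  have hβ2 : 0 < β ^ 2 := by rw [← sq_abs β]; positivity
  have hd0 : 0 < d := Real.sqrt_pos.2 (by positivity)
  have step_lb : ∀ n t s t' s', Near ξ ξ' η η' u v n t s → Near ξ ξ' η η' u v (n + w) t' s' →
      |t| ≤ r → |s| ≤ r → |t'| ≤ r → |s'| ≤ r → t < t' → t + d ≤ t' := by
    intro n t s t' s' hn hn' ht hs ht' hs' htt
    have e1 := rel n t s t' s' hn hn'
    have e2 := hbox.pos t s t' s' ht hs ht' hs'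
    have e3 := congrArg abs e1
    rw [abs_neg, abs_of_pos (lt_of_lt_of_le hc e2), abs_mul, abs_of_nonneg
      (show 0 ≤ (t - t') ^ 2 * β ^ 2 by positivity)] at e3
    rw [← e3] at e2
    have e4 : c / (|R| * β ^ 2) ≤ (t' - t) ^ 2 := by
      rw [div_le_iff₀ (by positivity)]
      calc c ≤ _ := e2
        _ = _ := by ring
    have e5 : d ≤ t' - t := by
      rw [hd]
      calc Real.sqrt (c / (|R| * β ^ 2)) ≤ Real.sqrt ((t' - t) ^ 2) := Real.sqrt_le_sqrt e4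
        _ = t' - t := Real.sqrt_sq (by linarith)
    linarith
  -- the induction
  have ind : ∀ k : ℕ, ∃ t s t' s', Near ξ ξ' η η' u v (n₁ + k * w) t s ∧
      Near ξ ξ' η η' u v (n₁ + k * w + w) t' s' ∧ -r4 + k * d ≤ t ∧ t < t' ∧ t' ≤ 0 ∧
      |s| ≤ r1 ∧ |s'| ≤ r1 := by
    intro k
    induction k with
    | zero =>
      refine ⟨t₁, s₁, t₂, s₂, ?_, ?_, ?_, ht12, ht₂0, by linarith, by linarith⟩
      · rw [zero_mul, add_zero]; exact hn₁
      · rw [zero_mul, add_zero]; exact hn₂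
      · have := (abs_le.1 ht₁).1
        push_cast
        linarith
    | succ k ih =>
      obtain ⟨t, s, t', s', hn, hn', htl, htt, ht0, hs, hs'⟩ := ih
      have hkd : 0 ≤ (k : ℝ) * d := by positivity
      have htr4 : |t| ≤ r4 := by rw [abs_le]; constructor <;> linarith
      have htr4' : |t'| ≤ r4 := by rw [abs_le]; constructor <;> linarith
      obtain ⟨t'', s'', hn'', c1, c2⟩ := hclose (n₁ + k * w + w) w t' s' hw0 hn' (by linarith)
        (by linarith) r1 hr10 (by linarith) (by rw [hRn]; exact hRbig)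
      have d1 : |t''| ≤ ρ := by
        have := abs_add_le (t'' - t') t'
        rw [sub_add_cancel] at this
        linarith
      have d2 : |s''| ≤ ρ := by
        have := abs_add_le (s'' - s') s'
        rw [sub_add_cancel] at this
        linarith
      have d3 := nonpos _ _ _ hn'' d1 d2
      have f1 := rel _ _ _ _ _ hn hn'
      have f2 := rel _ _ _ _ _ hn' hn''
      have g1 : t' < t'' := by
        refine hbox.mono t s t' s' t'' s'' (by linarith) (by linarith) (by linarith)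
          (by linarith) (by linarith) (by linarith) (Near.ff h hn) (Near.ff h hn')
          (Near.ff h hn'') htt ?_ ?_ ?_
        · exact hn.1.ne hn''.1 (h.hdu _ _ (by omega))
        · exact hn'.1.ne hn''.1 (h.hdu _ _ (by omega))
        · have f1' : Ph m t s t' s' = -(R * ((t - t') ^ 2 * β ^ 2)) := by rw [f1, neg_neg]
          have f2' : Ph m t' s' t'' s'' = -(R * ((t' - t'') ^ 2 * β ^ 2)) := by rw [f2, neg_neg]
          rw [f1', f2']
          ring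
      have g2 := step_lb _ _ _ _ _ hn hn' (by linarith) (by linarith) (by linarith)
        (by linarith) htt
      have htr4'' : |t''| ≤ r4 := by rw [abs_le]; constructor <;> linarith
      have g3 : |s''| ≤ r1 := by
        have := hbox.lip t'' s'' 0 0 (by linarith) (by linarith) (by rw [abs_zero]; exact hr.le)
          (by rw [abs_zero]; exact hr.le) (Near.ff h hn'') hm00
        rw [sub_zero, sub_zero] at this
        calc |s''| ≤ M * |t''| := this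
          _ ≤ M * r2 := by gcongr; exact htr4''.trans hr42
          _ ≤ r1 := hMr2
      have ek : n₁ + (k + 1) * w = n₁ + k * w + w := by ring
      refine ⟨t', s', t'', s'', by rw [ek]; exact hn', by rw [ek]; exact hn'', ?_, g1, d3, hs',
        g3⟩
      push_cast
      linarith
  obtain ⟨k, hk⟩ := exists_nat_gt (r4 / d)
  obtain ⟨t, s, t', s', -, -, a1, a2, a3, -, -⟩ := ind k
  rw [div_lt_iff₀ hd0] at hk
  linarith

end main

end Pool.Agent.W279.TriR
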