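import Mathlib

/-!
# Separation of compact sets by polynomials with rational coefficients (helper279)
-/

set_option autoImplicit false

namespace Pool.Agent.W279.TriR

open MvPolynomial

section sep

variable {ι : Type*} [Finite ι]

/-- the coordinate functions -/
def crd (i : ι) : C(ι → ℝ, ℝ) := ⟨fun x => x i, continuous_apply i⟩

lemma aeval_crd (p : MvPolynomial ι ℝ) (x : ι → ℝ) :
    (aeval (crd (ι := ι)) p : C(ι → ℝ, ℝ)) x = eval x p := by
  induction p using MvPolynomial.induction_on with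
  | C a => simp
  | add p q hp hq => simp [hp, hq]
  | mul_X p i hp => simp [hp, crd]

/-- approximation of the coefficients -/
lemma rat_approx (p : MvPolynomial ι ℝ) : ∀ ε : ℝ, 0 < ε → ∃ q : MvPolynomial ι ℚ,
    ∀ x : ι → ℝ, (∀ i, |x i| ≤ 1) → |eval x p - aeval x q| ≤ ε := by
  induction p using MvPolynomial.induction_on with
  | C a =>
    intro ε hε
    obtain ⟨r, hr⟩ := exists_rat_btwn (show a - ε < a + ε by linarith)
    refine ⟨C r, fun x _ => ?_⟩
    rw [eval_C, aeval_C, eq_ratCast, abs_le]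
    constructor <;> linarith [hr.1, hr.2]
  | add p q hp hq =>
    intro ε hε
    obtain ⟨p', hp'⟩ := hp (ε / 2) (by linarith)
    obtain ⟨q', hq'⟩ := hq (ε / 2) (by linarith)
    refine ⟨p' + q', fun x hx => ?_⟩
    have a1 := hp' x hx
    have a2 := hq' x hx
    rw [map_add, map_add]
    have e : eval x p + eval x q - (aeval x p' + aeval x q') =
        (eval x p - aeval x p') + (eval x q - aeval x q') := by ring
    rw [e]
    refine (abs_add_le _ _).trans ?_
    linarith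
  | mul_X p i hp =>
    intro ε hε
    obtain ⟨p', hp'⟩ := hp ε hε
    refine ⟨p' * X i, fun x hx => ?_⟩
    rw [map_mul, map_mul, eval_X, aeval_X, ← sub_mul, abs_mul]
    calc _ ≤ ε * 1 := mul_le_mul (hp' x hx) (hx i) (abs_nonneg _) hε.le
      _ = ε := mul_one _

theorem exists_poly_sep {A B : Set (ι → ℝ)} (hA : IsCompact A) (hB : IsCompact B)
    (hAB : Disjoint A B) (h1 : ∀ x ∈ A ∪ B, ∀ i, |x i| ≤ 1) :
    ∃ q : MvPolynomial ι ℚ, (∀ x ∈ A, 0 < aeval x q) ∧ ∀ x ∈ B, aeval x q < 0 := by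
  obtain ⟨f, hfB, hfA, -⟩ := exists_continuous_zero_one_of_isClosed hB.isClosed hA.isClosed
    hAB.symm
  have hsep : (aeval (crd (ι := ι)) : MvPolynomial ι ℝ →ₐ[ℝ] C(ι → ℝ, ℝ)).range.SeparatesPoints := by
    intro x y hxy
    obtain ⟨i, hi⟩ := Function.ne_iff.1 hxy
    refine ⟨crd i, ⟨crd i, ⟨X i, by simp⟩, rfl⟩, hi⟩
  obtain ⟨g, ⟨p, rfl⟩, hg⟩ :=
    ContinuousMap.exists_mem_subalgebra_near_continuous_of_isCompact_of_separatesPoints hsep f
      (hA.union hB) (show (0 : ℝ) < 1 / 8 by norm_num)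
  obtain ⟨q, hq⟩ := rat_approx p (1 / 8) (by norm_num)
  refine ⟨q - C (1 / 2), fun x hx => ?_, fun x hx => ?_⟩
  · have a1 := hg x (Or.inl hx)
    have a2 := hq x (h1 x (Or.inl hx))
    have a3 : f x = 1 := hfA hx
    rw [Real.norm_eq_abs] at a1
    change |(aeval (crd (ι := ι)) p : C(ι → ℝ, ℝ)) x - f x| < 1 / 8 at a1
    rw [aeval_crd, a3, abs_lt] at a1
    rw [abs_le] at a2
    rw [map_sub, aeval_C, eq_ratCast]
    push_cast
    linarith [a1.1, a2.2]
  · have a1 := hg x (Or.inr hx)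
    have a2 := hq x (h1 x (Or.inr hx))
    have a3 : f x = 0 := hfB hx
    rw [Real.norm_eq_abs] at a1
    change |(aeval (crd (ι := ι)) p : C(ι → ℝ, ℝ)) x - f x| < 1 / 8 at a1
    rw [aeval_crd, a3, abs_lt] at a1
    rw [abs_le] at a2
    rw [map_sub, aeval_C, eq_ratCast]
    push_cast
    linarith [a1.2, a2.1]

end sep

/-- the compactification of the affine space -/
noncomputable def cpt (x : Fin 3 → ℝ) (q : Fin 3 × Fin 2) : ℝ :=
  (![x q.1, 1] : Fin 2 → ℝ) q.2 / (1 + x q.1 ^ 2)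

/-- clearing the denominators -/
theorem exists_clear (p : MvPolynomial (Fin 3 × Fin 2) ℚ) :
    ∃ (N : ℕ) (s : MvPolynomial (Fin 3) ℚ), ∀ x : Fin 3 → ℝ,
      aeval x s = (∏ i, (1 + x i ^ 2)) ^ N * aeval (cpt x) p := by
  have hne : ∀ (x : Fin 3 → ℝ) i, (1 + x i ^ 2) ≠ 0 := fun x i => by positivity
  have hD : ∀ (x : Fin 3 → ℝ), aeval x (∏ i : Fin 3, (1 + X i ^ 2) : MvPolynomial (Fin 3) ℚ) =
      ∏ i, (1 + x i ^ 2) := by
    intro x
    rw [map_prod]
    refine Finset.prod_congr rfl fun i _ => ?_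
    simp
  induction p using MvPolynomial.induction_on with
  | C a => exact ⟨0, C a, fun x => by simp⟩
  | add p q hp hq =>
    obtain ⟨N, s, hs⟩ := hp
    obtain ⟨M, t, ht⟩ := hq
    refine ⟨N + M, s * (∏ i : Fin 3, (1 + X i ^ 2)) ^ M +
      t * (∏ i : Fin 3, (1 + X i ^ 2)) ^ N, fun x => ?_⟩
    rw [map_add, map_mul, map_mul, map_pow, map_pow, hD, hs, ht, map_add]
    ring
  | mul_X p q hp =>
    obtain ⟨N, s, hs⟩ := hp
    refine ⟨N + 1, s * ((![X q.1, 1] : Fin 2 → MvPolynomial (Fin 3) ℚ) q.2 *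
      ∏ i ∈ Finset.univ.erase q.1, (1 + X i ^ 2)), fun x => ?_⟩
    have e1 : aeval x (∏ i ∈ Finset.univ.erase q.1, (1 + X i ^ 2) : MvPolynomial (Fin 3) ℚ) =
        ∏ i ∈ Finset.univ.erase q.1, (1 + x i ^ 2) := by
      rw [map_prod]
      refine Finset.prod_congr rfl fun i _ => ?_
      simp
    have e2 : ∏ i, (1 + x i ^ 2) = (1 + x q.1 ^ 2) *
        ∏ i ∈ Finset.univ.erase q.1, (1 + x i ^ 2) :=
      (Finset.mul_prod_erase Finset.univ (fun i => 1 + x i ^ 2) (Finset.mem_univ _)).symm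
    have e3 : aeval x ((![X q.1, 1] : Fin 2 → MvPolynomial (Fin 3) ℚ) q.2) =
        (![x q.1, 1] : Fin 2 → ℝ) q.2 := by
      obtain ⟨i, a⟩ := q
      fin_cases a <;> simp
    rw [map_mul, map_mul, e1, e3, hs, map_mul, aeval_X, pow_succ]
    unfold cpt
    conv_rhs => rw [mul_assoc]
    rw [mul_assoc]
    congr 1
    have e4 := hne x q.1
    rw [e2]
    field_simp

end Pool.Agent.W279.TriR
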