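import Pool.Agent.W279.TriR.Glob
import Pool.Agent.W279.TriR.SW

/-!
# The closure of the rational points is semialgebraic (helper279)
-/

set_option autoImplicit false

namespace Pool.Agent.W279.TriR

open Pool.Agent.W279.Tri

variable {K : Type*} [Field K] {c : Fin 3 → Fin 3 → Fin 3 → K} {σ : K →+* ℝ}

/-- scaling -/
def sc (d : Fin 3 → ℝ) (P : Fin 3 → Fin 2 → ℝ) : Fin 3 → Fin 2 → ℝ := fun i => d i • P i

lemma continuous_sc (d : Fin 3 → ℝ) : Continuous (sc d) := by unfold sc; fun_prop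

lemma sc_inv {d : Fin 3 → ℝ} (hd : ∀ i, d i ≠ 0) (P : Fin 3 → Fin 2 → ℝ) :
    sc (fun i => (d i)⁻¹) (sc d P) = P := by
  funext i
  simp only [sc, smul_smul, inv_mul_cancel₀ (hd i), one_smul]

lemma sc_inv' {d : Fin 3 → ℝ} (hd : ∀ i, d i ≠ 0) (P : Fin 3 → Fin 2 → ℝ) :
    sc d (sc (fun i => (d i)⁻¹) P) = P := by
  funext i
  simp only [sc, smul_smul, mul_inv_cancel₀ (hd i), one_smul]

lemma E_sc (c : Fin 3 → Fin 3 → Fin 3 → ℝ) (d : Fin 3 → ℝ) (P : Fin 3 → Fin 2 → ℝ) :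
    E c (sc d P 0) (sc d P 1) (sc d P 2) =
      d 0 ^ 2 * d 1 ^ 2 * d 2 ^ 2 * E c (P 0) (P 1) (P 2) :=
  E_smul c _ _ _ _ _ _

lemma pt_sc {W : Set (Fin 3 → Fin 2 → ℝ)} {Y : Fin 3 → Fin 2 → K} {d : Fin 3 → ℝ}
    (hd : ∀ i, d i ≠ 0) (h : Pt c σ (sc d ⁻¹' W) Y) : Pt c σ W Y := by
  obtain ⟨h1, h2, e, he, heW⟩ := h
  refine ⟨h1, h2, fun i => d i * e i, fun i => mul_ne_zero (hd i) (he i), ?_⟩
  have e1 : (fun i a => d i * e i * σ (Y i a)) = sc d (fun i a => e i * σ (Y i a)) := by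
    funext i a
    simp only [sc, Pi.smul_apply, smul_eq_mul, mul_assoc]
  rw [e1]
  exact heW

lemma Cl_sc {P : Fin 3 → Fin 2 → ℝ} {d : Fin 3 → ℝ} (hd : ∀ i, d i ≠ 0) (h : P ∈ Cl c σ) :
    sc d P ∈ Cl c σ := by
  intro W hW
  obtain ⟨Y, hY⟩ := h _ ((continuous_sc d).continuousAt.preimage_mem_nhds hW)
  exact ⟨Y, pt_sc hd hY⟩

lemma Int_sc {P : Fin 3 → Fin 2 → ℝ} {d : Fin 3 → ℝ} (hd : ∀ i, d i ≠ 0) (h : P ∈ Int' c σ) :
    sc d P ∈ Int' c σ := by
  obtain ⟨W, hW, h⟩ := h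
  refine ⟨sc (fun i => (d i)⁻¹) ⁻¹' W, (continuous_sc _).continuousAt.preimage_mem_nhds
    (by rw [sc_inv hd]; exact hW), fun Q hQ hE => ?_⟩
  have h1 := h _ hQ (by rw [E_sc, hE, mul_zero])
  have h2 := Cl_sc hd h1
  rwa [sc_inv' hd] at h2

lemma isOpen_Int : IsOpen (Int' c σ) := by
  have : Int' c σ = interior {Q | E (cr c σ) (Q 0) (Q 1) (Q 2) = 0 → Q ∈ Cl c σ} := by
    ext P
    rw [mem_interior_iff_mem_nhds]
    constructor
    · rintro ⟨W, hW, h⟩
      exact Filter.mem_of_superset hW h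
    · intro h
      exact ⟨_, h, fun Q hQ => hQ⟩
  rw [this]
  exact isOpen_interior

lemma Int_sub {P : Fin 3 → Fin 2 → ℝ} (h : P ∈ Int' c σ)
    (hE : E (cr c σ) (P 0) (P 1) (P 2) = 0) : P ∈ Cl c σ := by
  obtain ⟨W, hW, h⟩ := h
  exact h P (mem_of_mem_nhds hW) hE

lemma isClosed_Cl : IsClosed (Cl c σ) := by
  rw [← isOpen_compl_iff, isOpen_iff_mem_nhds]
  intro P hP
  simp only [Cl, Set.mem_compl_iff, Set.mem_ofPred_eq, not_forall, not_exists] at hP
  obtain ⟨W, hW, h⟩ := hP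
  refine Filter.mem_of_superset (interior_mem_nhds.2 hW) fun Q hQ hQC => ?_
  obtain ⟨Y, hY⟩ := hQC W (mem_interior_iff_mem_nhds.1 hQ)
  exact h Y hY

/-- limits of interior points -/
theorem closed_Int {P : Fin 3 → Fin 2 → ℝ} (hP : ∀ i, P i ≠ 0)
    (hd : P ∈ Cl c σ → P ∈ Int' c σ ∨ ∃ P₀ : Fin 3 → Fin 2 → K, P ∈ Iso c σ P₀)
    (h : P ∈ closure {Q | Q ∈ Int' c σ ∧ E (cr c σ) (Q 0) (Q 1) (Q 2) = 0 ∧ ∀ i, Q i ≠ 0}) :
    P ∈ Int' c σ := by
  have hC : P ∈ Cl c σ := by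
    rw [← isClosed_Cl.closure_eq]
    exact closure_mono (fun Q hQ => Int_sub hQ.1 hQ.2.1) h
  rcases hd hC with h1 | ⟨P₀, hPP, W, hW, hWY⟩
  · exact h1
  · rw [mem_closure_iff_nhds] at h
    obtain ⟨Q, hQW, hQI, hQE, hQ0⟩ := h _ (interior_mem_nhds.2 hW)
    have hQC := Int_sub hQI hQE
    have hbr : ∀ i, br (Q i) (P i) = 0 := by
      intro i
      by_contra hne
      have hopen : IsOpen {R : Fin 3 → Fin 2 → ℝ | br (R i) (P i) ≠ 0} :=
        isOpen_ne_fun (continuous_br (continuous_apply i) continuous_const) continuous_const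
      obtain ⟨Y, hY0, hYE, d, hd, hdY⟩ := hQC (interior W ∩ {R | br (R i) (P i) ≠ 0})
        (Filter.inter_mem (isOpen_interior.mem_nhds hQW) (hopen.mem_nhds hne))
      have hY := hWY Y ⟨hY0, hYE, d, hd, interior_subset hdY.1⟩
      obtain ⟨t, ht0, ht⟩ := hY i
      obtain ⟨s, hs0, hs⟩ := hPP i
      apply hdY.2
      have e1 : (fun a => d i * σ (Y i a)) = (d i * σ t) • fun a => σ (P₀ i a) := by
        funext a
        rw [ht]
        simp only [Pi.smul_apply, smul_eq_mul, map_mul]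
        ring
      change br (fun a => d i * σ (Y i a)) (P i) = 0
      rw [e1, hs, br_smul_left, br_smul_right, br_self]
      ring
    choose t ht0 ht using fun i => (br_eq_zero_iff (hQ0 i) (hP i)).1 (hbr i)
    have e : P = sc t Q := by
      funext i
      rw [ht i]
      rfl
    rw [e]
    exact Int_sc ht0 hQI

/-- the unit vectors on the surface -/
def MM (c : Fin 3 → Fin 3 → Fin 3 → ℝ) : Set (Fin 3 → Fin 2 → ℝ) :=
  {P | (∀ i, P i 0 ^ 2 + P i 1 ^ 2 = 1) ∧ E c (P 0) (P 1) (P 2) = 0}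

lemma MM_abs {c : Fin 3 → Fin 3 → Fin 3 → ℝ} {P : Fin 3 → Fin 2 → ℝ} (h : P ∈ MM c) (i : Fin 3)
    (a : Fin 2) : |P i a| ≤ 1 := by
  have := h.1 i
  rw [← sq_le_one_iff_abs_le_one]
  fin_cases a
  · have := sq_nonneg (P i 1)
    change P i 0 ^ 2 ≤ 1
    linarith
  · have := sq_nonneg (P i 0)
    change P i 1 ^ 2 ≤ 1
    linarith

lemma MM_ne {c : Fin 3 → Fin 3 → Fin 3 → ℝ} {P : Fin 3 → Fin 2 → ℝ} (h : P ∈ MM c) (i : Fin 3) :
    P i ≠ 0 := by
  intro h0
  have := h.1 i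
  rw [h0] at this
  simp at this

lemma isCompact_MM (c : Fin 3 → Fin 3 → Fin 3 → ℝ) : IsCompact (MM c) := by
  refine Metric.isCompact_of_isClosed_isBounded ?_ ?_
  · have : MM c = (⋂ i, {P : Fin 3 → Fin 2 → ℝ | P i 0 ^ 2 + P i 1 ^ 2 = 1}) ∩
        {P | E c (P 0) (P 1) (P 2) = 0} := by
      ext P
      simp [MM]
    rw [this]
    refine (isClosed_iInter fun i => isClosed_eq (by fun_prop) continuous_const).inter
      (isClosed_eq (continuous_E c (continuous_apply 0) (continuous_apply 1)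
        (continuous_apply 2)) continuous_const)
  · refine (Metric.isBounded_closedBall (x := (0 : Fin 3 → Fin 2 → ℝ)) (r := 1)).subset
      fun P hP => ?_
    rw [Metric.mem_closedBall, dist_zero_right, pi_norm_le_iff_of_nonneg zero_le_one]
    intro i
    rw [pi_norm_le_iff_of_nonneg zero_le_one]
    intro a
    rw [Real.norm_eq_abs]
    exact MM_abs hP i a

/-- the embedding of the compactification -/
def Ps (P : Fin 3 → Fin 2 → ℝ) (q : Fin 3 × Fin 2) : ℝ := P q.1 q.2 * P q.1 1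

lemma continuous_Ps : Continuous Ps := by unfold Ps; fun_prop

lemma Ps_inj {c : Fin 3 → Fin 3 → Fin 3 → ℝ} {P Q : Fin 3 → Fin 2 → ℝ} (hP : P ∈ MM c)
    (hQ : Q ∈ MM c) (h : Ps P = Ps Q) : ∃ d : Fin 3 → ℝ, (∀ i, d i ≠ 0) ∧ Q = sc d P := by
  have hbr : ∀ i, br (P i) (Q i) = 0 := by
    intro i
    have h0 := congrFun h (i, 0)
    have h1 := congrFun h (i, 1)
    simp only [Ps] at h0 h1
    have h2 := hP.1 i
    have h3 := hQ.1 i
    have h4 : br (P i) (Q i) ^ 2 = 0 := by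
      have e1 : Q i 1 ^ 2 = P i 1 ^ 2 := by linear_combination -h1
      have e0 : Q i 0 ^ 2 = P i 0 ^ 2 := by linear_combination h3 - h2 - e1
      unfold br
      linear_combination (P i 0 ^ 2) * e1 + (P i 1 ^ 2) * e0 + 2 * (P i 0 * P i 1) * h0
    exact pow_eq_zero_iff (two_ne_zero) |>.1 h4
  choose t ht0 ht using fun i => (br_eq_zero_iff (MM_ne hP i) (MM_ne hQ i)).1 (hbr i)
  exact ⟨t, ht0, funext ht⟩

lemma E_cr (c : Fin 3 → Fin 3 → Fin 3 → K) (σ : K →+* ℝ) (X Y Z : Fin 2 → K) :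
    E (cr c σ) (fun i => σ (X i)) (fun i => σ (Y i)) (fun i => σ (Z i)) = σ (E c X Y Z) := by
  have h1 := G_map σ (fib c X) Y Z
  rw [G_fib] at h1
  rw [← G_fib, ← h1]
  congr 1
  funext j k
  exact fib_map σ c X j k

/-- the affine points -/
def af {F : Type*} [Field F] (x : Fin 3 → F) : Fin 3 → Fin 2 → F := fun i => ![x i, 1]

lemma af_ne {F : Type*} [Field F] (x : Fin 3 → F) (i : Fin 3) : af x i ≠ 0 := by
  intro h
  have := congrFun h 1
  simp [af] at this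

lemma continuous_af : Continuous (af (F := ℝ)) := by
  refine continuous_pi fun i => continuous_pi fun a => ?_
  fin_cases a
  · exact continuous_apply i
  · exact continuous_const

/-- the rational points of the affine surface -/
def VK (c : Fin 3 → Fin 3 → Fin 3 → K) (σ : K →+* ℝ) : Set (Fin 3 → ℝ) :=
  {x | ∃ r : Fin 3 → K, E c (af r 0) (af r 1) (af r 2) = 0 ∧ x = fun i => σ (r i)}

lemma E_of_vec {Y : Fin 3 → Fin 2 → K} (hY : ∀ i, Y i 1 ≠ 0)
    (h : E c (Y 0) (Y 1) (Y 2) = 0) :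
    E c (af (fun i => Y i 0 / Y i 1) 0) (af (fun i => Y i 0 / Y i 1) 1)
      (af (fun i => Y i 0 / Y i 1) 2) = 0 := by
  have e : ∀ i, Y i = Y i 1 • af (fun i => Y i 0 / Y i 1) i := fun i => norm_vec (hY i)
  rw [e 0, e 1, e 2, E_smul] at h
  have : Y 0 1 ^ 2 * Y 1 1 ^ 2 * Y 2 1 ^ 2 ≠ 0 :=
    mul_ne_zero (mul_ne_zero (pow_ne_zero 2 (hY 0)) (pow_ne_zero 2 (hY 1)))
      (pow_ne_zero 2 (hY 2))
  exact (mul_eq_zero.1 h).resolve_left this

lemma af_mem_Cl {x : Fin 3 → ℝ} : af x ∈ Cl c σ ↔ x ∈ closure (VK c σ) := by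
  rw [mem_closure_iff_nhds]
  constructor
  · intro h t ht
    have hW : {Q : Fin 3 → Fin 2 → ℝ | (∀ i, Q i 1 ≠ 0) ∧ (fun i => Q i 0 / Q i 1) ∈ t} ∈
        nhds (af x) := by
      have h1 : ∀ᶠ Q : Fin 3 → Fin 2 → ℝ in nhds (af x), ∀ i, Q i 1 ≠ 0 := by
        refine Filter.eventually_all.2 fun i => ?_
        exact (show Continuous fun Q : Fin 3 → Fin 2 → ℝ => Q i 1 by fun_prop).continuousAt
          |>.eventually_ne (by simp [af])
      have h2 : ContinuousAt (fun Q : Fin 3 → Fin 2 → ℝ => fun i => Q i 0 / Q i 1) (af x) := by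
        refine continuousAt_pi.2 fun i => ?_
        exact ContinuousAt.div
          (show Continuous fun Q : Fin 3 → Fin 2 → ℝ => Q i 0 by fun_prop).continuousAt
          (show Continuous fun Q : Fin 3 → Fin 2 → ℝ => Q i 1 by fun_prop).continuousAt
          (by simp [af])
      have h3 : (fun Q : Fin 3 → Fin 2 → ℝ => fun i => Q i 0 / Q i 1) (af x) = x := by
        funext i
        simp [af]
      exact h1.and (h2.preimage_mem_nhds (by
        simp only at h3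
        rw [h3]
        exact ht))
    obtain ⟨Y, hY0, hYE, d, hd, hd1, hd2⟩ := h _ hW
    have hY1 : ∀ i, Y i 1 ≠ 0 := by
      intro i h0
      apply hd1 i
      simp [h0]
    refine ⟨_, hd2, fun i => Y i 0 / Y i 1, E_of_vec hY1 hYE, ?_⟩
    funext i
    rw [map_div₀]
    have := hd i
    have h5 : σ (Y i 1) ≠ 0 := (map_ne_zero σ).2 (hY1 i)
    field_simp
  · intro h W hW
    obtain ⟨y, hy, r, hr, rfl⟩ := h _ (continuous_af.continuousAt.preimage_mem_nhds hW)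
    refine ⟨af r, af_ne r, hr, fun _ => 1, fun _ => one_ne_zero, ?_⟩
    have e : (fun i a => (1 : ℝ) * σ (af r i a)) = af (fun i => σ (r i)) := by
      funext i a
      fin_cases a <;> simp [af]
    rw [e]
    exact hy

/-- **the closure is semialgebraic** -/
theorem semialg [NumberField K] (h : Nice c)
    (hsm : ∀ P : Fin 3 → Fin 2 → ℝ, (∀ i, P i ≠ 0) → ¬SingX (cr c σ) (P 0) (P 1) (P 2)) :
    ∃ (q : MvPolynomial (Fin 3) ℚ) (T : Set (Fin 3 → K)), T.Finite ∧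
      (∀ r ∈ T, E c (af r 0) (af r 1) (af r 2) = 0) ∧
      (∀ x : Fin 3 → ℝ, E (cr c σ) (af x 0) (af x 1) (af x 2) = 0 →
        MvPolynomial.aeval x q ≠ 0) ∧
      closure (VK c σ) = {x | E (cr c σ) (af x 0) (af x 1) (af x 2) = 0 ∧
        0 < MvPolynomial.aeval x q} ∪ (fun r i => σ (r i)) '' T := by
  obtain ⟨T, hT, hT1, hdich⟩ := dichotomy h
  have hcl : ∀ P : Fin 3 → Fin 2 → ℝ, (∀ i, P i ≠ 0) → E (cr c σ) (P 0) (P 1) (P 2) = 0 →
      P ∈ closure {Q | Q ∈ Int' c σ ∧ E (cr c σ) (Q 0) (Q 1) (Q 2) = 0 ∧ ∀ i, Q i ≠ 0} →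
      P ∈ Int' c σ := by
    intro P hP hE hPc
    refine closed_Int hP (fun hC => ?_) hPc
    rcases hdich σ P hP hE (hsm P hP) hC with h | ⟨P₀, -, h⟩
    · exact Or.inl h
    · exact Or.inr ⟨P₀, h⟩
  set D1 : Set (Fin 3 → Fin 2 → ℝ) := MM (cr c σ) ∩ Int' c σ with hD1
  set D2 : Set (Fin 3 → Fin 2 → ℝ) := MM (cr c σ) ∩ (Int' c σ)ᶜ with hD2
  have hMM := isCompact_MM (cr c σ)
  have hD2c : IsCompact D2 := hMM.inter_right isOpen_Int.isClosed_compl
  have hD1c : IsCompact D1 := by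
    refine hMM.of_isClosed_subset ?_ Set.inter_subset_left
    refine isClosed_of_closure_subset fun P hP => ?_
    have hPM : P ∈ MM (cr c σ) := by
      rw [← hMM.isClosed.closure_eq]
      exact closure_mono Set.inter_subset_left hP
    refine ⟨hPM, hcl P (MM_ne hPM) hPM.2 (closure_mono (fun Q hQ => ?_) hP)⟩
    exact ⟨hQ.2, hQ.1.2, MM_ne hQ.1⟩
  have hdisj : Disjoint (Ps '' D1) (Ps '' D2) := by
    rw [Set.disjoint_left]
    rintro _ ⟨P, hP, rfl⟩ ⟨Q, hQ, hPQ⟩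
    obtain ⟨d, hd, rfl⟩ := Ps_inj hP.1 hQ.1 hPQ.symm
    exact hQ.2 (Int_sc hd hP.2)
  obtain ⟨p, hp1, hp2⟩ := exists_poly_sep (hD1c.image continuous_Ps) (hD2c.image continuous_Ps)
    hdisj (by
      rintro _ (⟨P, hP, rfl⟩ | ⟨P, hP, rfl⟩) q
      · unfold Ps
        rw [abs_mul]
        have := MM_abs hP.1 q.1 q.2
        have := MM_abs hP.1 q.1 1
        calc |P q.1 q.2| * |P q.1 1| ≤ 1 * 1 := by gcongr
          _ = 1 := one_mul 1
      · unfold Ps
        rw [abs_mul]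
        have := MM_abs hP.1 q.1 q.2
        have := MM_abs hP.1 q.1 1
        calc |P q.1 q.2| * |P q.1 1| ≤ 1 * 1 := by gcongr
          _ = 1 := one_mul 1)
  obtain ⟨N, s, hs⟩ := exists_clear p
  -- the normalised point over an affine point
  set nu : (Fin 3 → ℝ) → Fin 3 → ℝ := fun x i => (Real.sqrt (1 + x i ^ 2))⁻¹ with hnu
  have hnu0 : ∀ x i, nu x i ≠ 0 := fun x i => by
    have : 0 < Real.sqrt (1 + x i ^ 2) := Real.sqrt_pos.2 (by positivity)
    exact inv_ne_zero this.ne'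
  have hnu2 : ∀ x i, nu x i ^ 2 = (1 + x i ^ 2)⁻¹ := by
    intro x i
    rw [hnu]
    simp only
    rw [inv_pow, Real.sq_sqrt (by positivity)]
  have hmem : ∀ x, E (cr c σ) (af x 0) (af x 1) (af x 2) = 0 → sc (nu x) (af x) ∈ MM (cr c σ) := by
    intro x hx
    refine ⟨fun i => ?_, by rw [E_sc, hx, mul_zero]⟩
    have h1 : (1 + x i ^ 2) ≠ 0 := by positivity
    simp only [sc, af, Pi.smul_apply, smul_eq_mul, Matrix.cons_val_zero, Matrix.cons_val_one]
    rw [mul_pow, mul_pow, hnu2, one_pow, ← mul_add, add_comm (x i ^ 2), inv_mul_cancel₀ h1]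
  have hPs : ∀ x, Ps (sc (nu x) (af x)) = cpt x := by
    intro x
    funext q
    obtain ⟨i, a⟩ := q
    have h1 : (1 + x i ^ 2) ≠ 0 := by positivity
    have e : Ps (sc (nu x) (af x)) (i, a) = nu x i ^ 2 * (![x i, 1] : Fin 2 → ℝ) a := by
      simp only [Ps, sc, af, Pi.smul_apply, smul_eq_mul, Matrix.cons_val_one,
        Matrix.cons_val_zero]
      ring
    rw [e, hnu2]
    simp only [cpt]
    rw [div_eq_inv_mul]
  have hDpos : ∀ x : Fin 3 → ℝ, 0 < (∏ i, (1 + x i ^ 2)) ^ N := fun x => by positivity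
  have pos_iff : ∀ x, E (cr c σ) (af x 0) (af x 1) (af x 2) = 0 → af x ∈ Int' c σ →
      0 < MvPolynomial.aeval x s := by
    intro x hx hI
    rw [hs]
    refine mul_pos (hDpos x) (hp1 _ ⟨sc (nu x) (af x), ⟨hmem x hx, Int_sc (hnu0 x) hI⟩, hPs x⟩)
  have neg_of : ∀ x, E (cr c σ) (af x 0) (af x 1) (af x 2) = 0 → af x ∉ Int' c σ →
      MvPolynomial.aeval x s < 0 := by
    intro x hx hI
    rw [hs]
    refine mul_neg_of_pos_of_neg (hDpos x)
      (hp2 _ ⟨sc (nu x) (af x), ⟨hmem x hx, fun hI' => hI ?_⟩, hPs x⟩)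
    have := Int_sc (fun i => inv_ne_zero (hnu0 x i)) hI'
    rwa [sc_inv (hnu0 x)] at this
  refine ⟨s, {r | ∃ P ∈ T, (∀ i, P i 1 ≠ 0) ∧ r = fun i => P i 0 / P i 1}, ?_, ?_, ?_, ?_⟩
  · refine (hT.image fun P => fun i => P i 0 / P i 1).subset ?_
    rintro r ⟨P, hP, -, rfl⟩
    exact ⟨P, hP, rfl⟩
  · rintro r ⟨P, hP, hP1, rfl⟩
    exact E_of_vec hP1 (hT1 P hP).2
  · intro x hx
    by_cases hI : af x ∈ Int' c σ
    · exact (pos_iff x hx hI).ne'
    · exact (neg_of x hx hI).ne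
  · have hVE : ∀ x ∈ VK c σ, E (cr c σ) (af x 0) (af x 1) (af x 2) = 0 := by
      rintro x ⟨r, hr, rfl⟩
      have h2 := E_cr c σ (af r 0) (af r 1) (af r 2)
      rw [hr, map_zero] at h2
      have e : ∀ i, (fun a => σ (af r i a)) = af (fun i => σ (r i)) i := by
        intro i
        funext a
        fin_cases a <;> simp [af]
      have h3 := h2
      simp only [e] at h3
      exact h3
    have hVE' : ∀ x ∈ closure (VK c σ), E (cr c σ) (af x 0) (af x 1) (af x 2) = 0 := by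
      have h1 : IsClosed {x : Fin 3 → ℝ | E (cr c σ) (af x 0) (af x 1) (af x 2) = 0} :=
        isClosed_eq (continuous_E _ ((continuous_apply 0).comp continuous_af)
          ((continuous_apply 1).comp continuous_af) ((continuous_apply 2).comp continuous_af))
          continuous_const
      intro x hx
      exact closure_minimal hVE h1 hx
    ext x
    constructor
    · intro hx
      have hE := hVE' x hx
      have hC := af_mem_Cl.2 hx
      rcases hdich σ (af x) (af_ne x) hE (hsm _ (af_ne x)) hC with hI | ⟨P₀, hP₀, hI, -⟩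
      · exact Or.inl ⟨hE, pos_iff x hE hI⟩
      · right
        have hP1 : ∀ i, P₀ i 1 ≠ 0 := by
          intro i h0
          obtain ⟨t, -, ht⟩ := hI i
          have := congrFun ht 1
          simp [af, h0] at this
        refine ⟨_, ⟨P₀, hP₀, hP1, rfl⟩, ?_⟩
        funext i
        obtain ⟨t, ht0, ht⟩ := hI i
        have e0 := congrFun ht 0
        have e1 := congrFun ht 1
        simp only [af, Matrix.cons_val_zero, Matrix.cons_val_one, Pi.smul_apply,
          smul_eq_mul] at e0 e1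
        have h5 : σ (P₀ i 1) ≠ 0 := (map_ne_zero σ).2 (hP1 i)
        simp only [map_div₀]
        rw [div_eq_iff h5, e0]
        linear_combination σ (P₀ i 0) * e1
    · rintro (⟨hE, hx⟩ | ⟨r, ⟨P, hP, hP1, rfl⟩, rfl⟩)
      · rw [← af_mem_Cl]
        have hI : af x ∈ Int' c σ := by
          by_contra hn
          have := neg_of x hE hn
          linarith
        exact Int_sub hI hE
      · exact subset_closure ⟨_, E_of_vec hP1 (hT1 P hP).2, rfl⟩

end Pool.Agent.W279.TriR
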