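import Pool.Agent.W279.TriR.Clopen

/-!
# The hypotheses in terms of the polynomial (helper279)
-/

set_option autoImplicit false

namespace Pool.Agent.W279.TriR

open Pool.Agent.W279.Tri MvPolynomial

variable {K : Type*} [Field K]

/-- from the polynomial to the array of coefficients -/
theorem nice_of {c : Fin 3 → Fin 3 → Fin 3 → K}
    (hl : ∀ (i : Fin 3) (p : Fin 3 → Fin 2 → AlgebraicClosure K), (∀ j, p j ≠ 0) →
      ∃ w : Fin 2 → AlgebraicClosure K,
        aeval (fun q : Fin 3 × Fin 2 => Function.update p i w q.1 q.2) (form c) ≠ 0)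
    (hs : ∃ S : Set (Fin 3 → Fin 2 → AlgebraicClosure K), S.Finite ∧
      ∀ p : Fin 3 → Fin 2 → AlgebraicClosure K, (∀ i, p i ≠ 0) →
        (∀ q : Fin 3 × Fin 2,
          aeval (fun r : Fin 3 × Fin 2 => p r.1 r.2) (pderiv q (form c)) = 0) →
        ∃ s ∈ S, ∀ i, ∃ t : AlgebraicClosure K, p i = t • s i) : Nice c := by
  classical
  set A := AlgebraicClosure K with hA
  set c' : Fin 3 → Fin 3 → Fin 3 → A := fun i j k => algebraMap K A (c i j k) with hc'
  have hE : ∀ p : Fin 3 → Fin 2 → A, aeval (fun q : Fin 3 × Fin 2 => p q.1 q.2) (form c) =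
      E c' (p 0) (p 1) (p 2) := by
    intro p
    rw [aeval_def, eval₂_form]
  have hne : (![1, 0] : Fin 2 → A) ≠ 0 := fun h => by
    have := congrFun h 0
    simp at this
  refine ⟨?_, ?_, ?_, ?_⟩
  · refine NC_of_E fun y z hy hz => ?_
    obtain ⟨w, hw⟩ := hl 0 ![![1, 0], y, z] (fun i => by
      fin_cases i
      · exact hne
      · exact hy
      · exact hz)
    rw [hE] at hw
    exact ⟨w, by simpa using hw⟩
  · refine NC_of_E fun x z hx hz => ?_
    obtain ⟨w, hw⟩ := hl 1 ![x, ![1, 0], z] (fun i => by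
      fin_cases i
      · exact hx
      · exact hne
      · exact hz)
    rw [hE] at hw
    refine ⟨w, ?_⟩
    have e : E (fun i j k => algebraMap K A (sw c i j k)) w x z = E c' x w z :=
      E_sw c' x w z
    rw [e]
    simpa using hw
  · refine NC_of_E fun x y hx hy => ?_
    obtain ⟨w, hw⟩ := hl 2 ![x, y, ![1, 0]] (fun i => by
      fin_cases i
      · exact hx
      · exact hy
      · exact hne)
    rw [hE] at hw
    refine ⟨w, ?_⟩
    have e : E (fun i j k => algebraMap K A (rot c i j k)) w x y = E c' x y w :=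
      E_rot c' x y w
    rw [e]
    simpa using hw
  · obtain ⟨S, hSf, hS⟩ := hs
    refine ⟨S, hSf, fun x y z hx hy hz h => hS ![x, y, z] (fun i => ?_) ?_⟩
    · fin_cases i
      · exact hx
      · exact hy
      · exact hz
    · have h1 := (singX_iff (algebraMap K A) c x y z).1 h
      intro q
      exact h1 q

/-- the cone over the rational points -/
def cone (F : MvPolynomial (Fin 3 × Fin 2) K) (σ : K →+* ℝ) : Set (Fin 3 → Fin 2 → ℝ) :=
  {x | ∃ (y : Fin 3 → Fin 2 → K) (d : Fin 3 → ℝ), (∀ i, y i ≠ 0) ∧ (∀ i, d i ≠ 0) ∧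
    eval (fun q => y q.1 q.2) F = 0 ∧ x = fun i a => d i * σ (y i a)}

lemma mem_cone {c : Fin 3 → Fin 3 → Fin 3 → K} {σ : K →+* ℝ} {x : Fin 3 → Fin 2 → ℝ} :
    x ∈ closure (cone (form c) σ) ↔ x ∈ Cl c σ := by
  rw [mem_closure_iff_nhds]
  constructor
  · intro h W hW
    obtain ⟨_, hxW, y, d, hy, hd, hE, rfl⟩ := h W hW
    rw [eval_form] at hE
    exact ⟨y, hy, hE, d, hd, hxW⟩
  · intro h W hW
    obtain ⟨y, hy, hE, d, hd, hxW⟩ := h W hW
    exact ⟨_, hxW, y, d, hy, hd, by rw [eval_form]; exact hE, rfl⟩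

lemma Cl_E {c : Fin 3 → Fin 3 → Fin 3 → K} {σ : K →+* ℝ} {x : Fin 3 → Fin 2 → ℝ}
    (h : x ∈ Cl c σ) : E (cr c σ) (x 0) (x 1) (x 2) = 0 := by
  by_contra hne
  have hopen : IsOpen {Q : Fin 3 → Fin 2 → ℝ | E (cr c σ) (Q 0) (Q 1) (Q 2) ≠ 0} :=
    isOpen_ne_fun (continuous_E _ (continuous_apply 0) (continuous_apply 1)
      (continuous_apply 2)) continuous_const
  obtain ⟨Y, -, hYE, d, -, hd⟩ := h _ (hopen.mem_nhds hne)
  apply hd
  have e : (fun i a => d i * σ (Y i a)) = sc d (fun i a => σ (Y i a)) := rfl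
  change E (cr c σ) (sc d (fun i a => σ (Y i a)) 0) (sc d (fun i a => σ (Y i a)) 1)
    (sc d (fun i a => σ (Y i a)) 2) = 0
  rw [E_sc, E_cr, hYE, map_zero, mul_zero]

lemma singX_real (c : Fin 3 → Fin 3 → Fin 3 → K) (σ : K →+* ℝ) (x : Fin 3 → Fin 2 → ℝ) :
    SingX (cr c σ) (x 0) (x 1) (x 2) ↔
      ∀ q, eval₂ σ (fun p : Fin 3 × Fin 2 => x p.1 p.2) (pderiv q (form c)) = 0 := by
  have h := singX_iff σ c (x 0) (x 1) (x 2)
  have e : (fun p : Fin 3 × Fin 2 => (![x 0, x 1, x 2] : Fin 3 → Fin 2 → ℝ) p.1 p.2) =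
      fun p : Fin 3 × Fin 2 => x p.1 p.2 := by
    funext ⟨i, a⟩
    fin_cases i <;> rfl
  rw [e] at h
  exact h

lemma eval₂_cr (c : Fin 3 → Fin 3 → Fin 3 → K) (σ : K →+* ℝ) (x : Fin 3 → Fin 2 → ℝ) :
    eval₂ σ (fun p : Fin 3 × Fin 2 => x p.1 p.2) (form c) = E (cr c σ) (x 0) (x 1) (x 2) :=
  eval₂_form σ c _

end Pool.Agent.W279.TriR
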