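import Pool.Agent.W279.TriR.Mono
import Pool.Agent.W279.Tri.Smooth

/-!
# Frames, the invariant in local coordinates (helper279)
-/

set_option autoImplicit false

namespace Pool.Agent.W279.TriR

open Pool.Agent.W279.Tri

/-- the coefficients in the second variable -/
def fr (g : Fin 3 → Fin 3 → ℝ) (u η η' : Fin 2 → ℝ) (k : Fin 3) : ℝ :=
  ![G g u η, Pv g u η η', G g u η'] k

/-- the polynomial of the curve in the frame -/
def fm (g : Fin 3 → Fin 3 → ℝ) (ξ ξ' η η' : Fin 2 → ℝ) (j k : Fin 3) : ℝ :=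
  ![fr g ξ η η' k, fr g (ξ + ξ') η η' k - fr g ξ η η' k - fr g ξ' η η' k, fr g ξ' η η' k] j

lemma G_frame (g : Fin 3 → Fin 3 → ℝ) (ξ ξ' η η' : Fin 2 → ℝ) (t s : ℝ) :
    G g (ξ + t • ξ') (η + s • η') = ff (fm g ξ ξ' η η') t s := by
  simp only [ff, co, fm, fr, G, Pv, mon, Fin.sum_univ_three, Pi.add_apply, Pi.smul_apply,
    smul_eq_mul, Matrix.cons_val_zero, Matrix.cons_val_one, Matrix.cons_val]
  ring

lemma br_frame (ξ ξ' : Fin 2 → ℝ) (t t' : ℝ) :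
    br (ξ + t • ξ') (ξ + t' • ξ') = (t' - t) * br ξ ξ' := by
  simp only [br, Pi.add_apply, Pi.smul_apply, smul_eq_mul]
  ring

/-- `t` is the coordinate of the class of `u` -/
def At (ξ ξ' u : Fin 2 → ℝ) (t : ℝ) : Prop := ∃ a : ℝ, a ≠ 0 ∧ u = a • (ξ + t • ξ')

lemma At.sub {ξ ξ' u u' : Fin 2 → ℝ} {t t' : ℝ} (h : At ξ ξ' u t) (h' : At ξ ξ' u' t') :
    ∃ a b : ℝ, a ≠ 0 ∧ b ≠ 0 ∧ br u u' = a * (b * ((t' - t) * br ξ ξ')) := by
  obtain ⟨a, ha, rfl⟩ := h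
  obtain ⟨b, hb, rfl⟩ := h'
  exact ⟨a, b, ha, hb, by rw [br_smul_left, br_smul_right, br_frame]⟩

lemma At.ne {ξ ξ' u u' : Fin 2 → ℝ} {t t' : ℝ} (h : At ξ ξ' u t) (h' : At ξ ξ' u' t')
    (hne : br u u' ≠ 0) : t' ≠ t := by
  rintro rfl
  obtain ⟨a, b, -, -, e⟩ := h.sub h'
  apply hne
  rw [e, sub_self]
  ring

lemma At.unique {ξ ξ' u : Fin 2 → ℝ} (hξ : br ξ ξ' ≠ 0) {t t' : ℝ} (h : At ξ ξ' u t)
    (h' : At ξ ξ' u t') : t' = t := by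
  obtain ⟨a, b, ha, hb, e⟩ := h.sub h'
  rw [br_self] at e
  have h1 : (t' - t) * br ξ ξ' = 0 := by
    have := (mul_eq_zero.1 e.symm).resolve_left ha
    exact (mul_eq_zero.1 this).resolve_left hb
  have := (mul_eq_zero.1 h1).resolve_right hξ
  linarith

lemma ff_of_At {g : Fin 3 → Fin 3 → ℝ} {ξ ξ' η η' u v : Fin 2 → ℝ} {t s : ℝ}
    (hu : At ξ ξ' u t) (hv : At η η' v s) (h : G g u v = 0) : ff (fm g ξ ξ' η η') t s = 0 := by
  obtain ⟨a, ha, rfl⟩ := hu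
  obtain ⟨b, hb, rfl⟩ := hv
  rw [G_smul_left, G_smul_right, G_frame] at h
  have h1 := (mul_eq_zero.1 h).resolve_left (pow_ne_zero 2 ha)
  exact (mul_eq_zero.1 h1).resolve_left (pow_ne_zero 2 hb)

/-- the invariant in the frame -/
lemma Rr_frame {g : Fin 3 → Fin 3 → ℝ} {ξ ξ' η η' u v u' v' : Fin 2 → ℝ} {t s t' s' : ℝ}
    (hu : At ξ ξ' u t) (hv : At η η' v s) (hu' : At ξ ξ' u' t') (hv' : At η η' v' s')
    (h : G g u v = 0) (h' : G g u' v' = 0) (hbu : br u u' ≠ 0) (hbv : br v v' ≠ 0) :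
    Rr g u v u' v' * ((t - t') ^ 2 * (br ξ ξ' * br η η') ^ 2) =
      -Ph (fm g ξ ξ' η η') t s t' s' := by
  have e0 := ff_of_At hu hv h
  have e0' := ff_of_At hu' hv' h'
  have htt := hu.ne hu' hbu
  have hss := hv.ne hv' hbv
  have hξ : br ξ ξ' ≠ 0 := by
    intro h0
    obtain ⟨a, b, -, -, e⟩ := hu.sub hu'
    apply hbu
    rw [e, h0]; ring
  have hη : br η η' ≠ 0 := by
    intro h0
    obtain ⟨a, b, -, -, e⟩ := hv.sub hv'
    apply hbv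
    rw [e, h0]; ring
  obtain ⟨a, ha, rfl⟩ := hu
  obtain ⟨b, hb, rfl⟩ := hv
  obtain ⟨a', ha', rfl⟩ := hu'
  obtain ⟨b', hb', rfl⟩ := hv'
  rw [Rr_smul _ _ _ _ _ ha hb ha' hb']
  unfold Rr
  rw [G_frame, G_frame, br_frame, br_frame]
  have e1 : ff (fm g ξ ξ' η η') t s' = (s' - s) * hh (fm g ξ ξ' η η') t s s' := by
    have := ff_sub (fm g ξ ξ' η η') t s' s
    rw [e0, sub_zero] at this
    rw [this, hh_symm]
  have e2 : ff (fm g ξ ξ' η η') t' s = (s - s') * hh (fm g ξ ξ' η η') t' s s' := by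
    have := ff_sub (fm g ξ ξ' η η') t' s s'
    rw [e0', sub_zero] at this
    rw [this]
  rw [e1, e2]
  have n1 : t' - t ≠ 0 := sub_ne_zero.2 htt
  have n2 : s' - s ≠ 0 := sub_ne_zero.2 hss
  unfold Ph
  field_simp
  ring

/-- upper bound for the invariant -/
lemma Rr_upper (g : Fin 3 → Fin 3 → ℝ) : ∃ C : ℝ, 0 < C ∧ ∀ u v u' v' : Fin 2 → ℝ,
    u ≠ 0 → v ≠ 0 → u' ≠ 0 → v' ≠ 0 → G g u v = 0 → G g u' v' = 0 → br u u' ≠ 0 → br v v' ≠ 0 →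
    ∀ ε : ℝ, 0 < ε → (C / ε) ^ 2 ≤ ‖Rr g u v u' v'‖ →
      ‖br u u'‖ ≤ ε * (‖u‖ * ‖u'‖) ∧ ‖br v v'‖ ≤ ε * (‖v‖ * ‖v'‖) := by
  obtain ⟨C1, hC1, hup1⟩ := upper g
  obtain ⟨C2, hC2, hup2⟩ := upper (fun j k => g k j)
  set C := max C1 C2 + 1 with hC
  have hCpos : 0 < C := by
    have := le_max_left C1 C2
    rw [hC]; linarith
  have hCC1 : C1 ≤ C := by have := le_max_left C1 C2; rw [hC]; linarith
  have hCC2 : C2 ≤ C := by have := le_max_right C1 C2; rw [hC]; linarith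
  refine ⟨C, hCpos, ?_⟩
  -- normalised vectors
  have key : ∀ u v u' v' : Fin 2 → ℝ, ‖u‖ = 1 → ‖v‖ = 1 → ‖u'‖ = 1 → ‖v'‖ = 1 → G g u v = 0 →
      G g u' v' = 0 → br u u' ≠ 0 → br v v' ≠ 0 → ∀ ε : ℝ, 0 < ε →
      (C / ε) ^ 2 ≤ ‖Rr g u v u' v'‖ → ‖br u u'‖ ≤ ε ∧ ‖br v v'‖ ≤ ε := by
    intro u v u' v' hu hv hu' hv' h h' hbu hbv ε hε hlarge
    have hbU' : 0 < ‖br u u'‖ := norm_pos_iff.2 hbu
    have hbV' : 0 < ‖br v v'‖ := norm_pos_iff.2 hbv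
    have a1 : ‖G g u v'‖ ≤ C * ‖br v v'‖ := by
      have := hup1 u v v' hu hv hv' h
      rw [br_swap, norm_neg] at this
      exact this.trans (by gcongr)
    have a2 : ‖G g u' v‖ ≤ C * ‖br v v'‖ := by
      have := hup1 u' v' v hu' hv' hv h'
      exact this.trans (by gcongr)
    have a3 : ‖G g u v'‖ ≤ C * ‖br u u'‖ := by
      have := hup2 v' u' u hv' hu' hu (by rw [← G_swap]; exact h')
      rw [← G_swap] at this
      exact this.trans (by gcongr)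
    have a4 : ‖G g u' v‖ ≤ C * ‖br u u'‖ := by
      have := hup2 v u u' hv hu hu' (by rw [← G_swap]; exact h)
      rw [← G_swap, br_swap, norm_neg] at this
      exact this.trans (by gcongr)
    have b1 : ‖Rr g u v u' v'‖ ≤ (C / ‖br u u'‖) ^ 2 := by
      unfold Rr
      rw [norm_div, norm_mul, norm_mul, norm_pow, norm_pow, div_pow, div_le_div_iff₀
        (by positivity) (by positivity)]
      calc ‖G g u v'‖ * ‖G g u' v‖ * ‖br u u'‖ ^ 2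
          ≤ (C * ‖br v v'‖) * (C * ‖br v v'‖) * ‖br u u'‖ ^ 2 := by gcongr
        _ = _ := by ring
    have b2 : ‖Rr g u v u' v'‖ ≤ (C / ‖br v v'‖) ^ 2 := by
      unfold Rr
      rw [norm_div, norm_mul, norm_mul, norm_pow, norm_pow, div_pow, div_le_div_iff₀
        (by positivity) (by positivity)]
      calc ‖G g u v'‖ * ‖G g u' v‖ * ‖br v v'‖ ^ 2
          ≤ (C * ‖br u u'‖) * (C * ‖br u u'‖) * ‖br v v'‖ ^ 2 := by gcongr
        _ = _ := by ring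
    have fin : ∀ t : ℝ, 0 < t → (C / ε) ^ 2 ≤ (C / t) ^ 2 → t ≤ ε := by
      intro t ht h
      have h1 : C / ε ≤ C / t :=
        (pow_le_pow_iff_left₀ (by positivity) (by positivity) (by norm_num)).1 h
      exact (div_le_div_iff_of_pos_left hCpos hε ht).1 h1
    exact ⟨fin _ hbU' (hlarge.trans b1), fin _ hbV' (hlarge.trans b2)⟩
  intro u v u' v' hu hv hu' hv' h h' hbu hbv ε hε hlarge
  obtain ⟨a, ha0, ha⟩ := exists_normalize hu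
  obtain ⟨b, hb0, hb⟩ := exists_normalize hv
  obtain ⟨a', ha0', ha'⟩ := exists_normalize hu'
  obtain ⟨b', hb0', hb'⟩ := exists_normalize hv'
  have k := key (a • u) (b • v) (a' • u') (b' • v') ha hb ha' hb'
    (by rw [G_smul_left, G_smul_right, h]; ring) (by rw [G_smul_left, G_smul_right, h']; ring)
    (by rw [br_smul_left, br_smul_right]; exact mul_ne_zero ha0 (mul_ne_zero ha0' hbu))
    (by rw [br_smul_left, br_smul_right]; exact mul_ne_zero hb0 (mul_ne_zero hb0' hbv)) ε hε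
    (by rw [Rr_smul g _ _ _ _ ha0 hb0 ha0' hb0']; exact hlarge)
  have fin : ∀ {x x' : Fin 2 → ℝ} {p p' : ℝ}, x ≠ 0 → x' ≠ 0 → ‖p • x‖ = 1 → ‖p' • x'‖ = 1 →
      ‖br (p • x) (p' • x')‖ ≤ ε → ‖br x x'‖ ≤ ε * (‖x‖ * ‖x'‖) := by
    intro x x' p p' hx hx' hp hp' hle
    rw [br_smul_left, br_smul_right, norm_mul, norm_mul] at hle
    rw [norm_smul] at hp hp'
    have p1 : 0 < ‖x‖ := norm_pos_iff.2 hx
    have p2 : 0 < ‖x'‖ := norm_pos_iff.2 hx'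
    calc ‖br x x'‖ = (‖p‖ * (‖p'‖ * ‖br x x'‖)) * (‖x‖ * ‖x'‖) := by
          have : (‖p‖ * (‖p'‖ * ‖br x x'‖)) * (‖x‖ * ‖x'‖) =
            (‖p‖ * ‖x‖) * (‖p'‖ * ‖x'‖) * ‖br x x'‖ := by ring
          rw [this, hp, hp']; ring
      _ ≤ ε * (‖x‖ * ‖x'‖) := by gcongr
  exact ⟨fin hu hu' ha ha' k.1, fin hv hv' hb hb' k.2⟩

/-- closeness in the coordinate -/
lemma coord_close {ξ ξ' : Fin 2 → ℝ} (hξ : br ξ ξ' ≠ 0) :
    ∃ C : ℝ, 0 < C ∧ ∀ (u w : Fin 2 → ℝ) (t₀ : ℝ), At ξ ξ' u t₀ → |t₀| ≤ 1 → w ≠ 0 →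
      ∀ ε : ℝ, 0 < ε → C * ε ≤ 1 → ‖br u w‖ ≤ ε * (‖u‖ * ‖w‖) →
        ∃ t, At ξ ξ' w t ∧ |t - t₀| ≤ C * ε := by
  set β := br ξ ξ' with hβ
  have hβ0 : 0 < |β| := abs_pos.2 hξ
  set S : ℝ := ‖ξ‖ + ‖ξ'‖ with hS
  have hS0 : 0 ≤ S := by positivity
  set C1 : ℝ := S / |β| with hC1
  have hC10 : 0 ≤ C1 := by positivity
  refine ⟨2 * C1 * S + 2 * C1 * ‖ξ'‖ + 1, by positivity, ?_⟩
  rintro u w t₀ ⟨a, ha, rfl⟩ ht₀ hw ε hε hCε hbr
  rw [br_smul_left, norm_mul, norm_smul] at hbr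
  have ha' : 0 < ‖a‖ := norm_pos_iff.2 ha
  have hbr' : ‖br (ξ + t₀ • ξ') w‖ ≤ ε * (‖ξ + t₀ • ξ'‖ * ‖w‖) := by
    have : ‖a‖ * ‖br (ξ + t₀ • ξ') w‖ ≤ ‖a‖ * (ε * (‖ξ + t₀ • ξ'‖ * ‖w‖)) := by
      calc _ ≤ _ := hbr
        _ = _ := by ring
    exact le_of_mul_le_mul_left this ha'
  -- the coordinates of `w`
  set p : ℝ := br w ξ' / β with hp
  set q : ℝ := br ξ w / β with hq
  have hw' : w = p • ξ + q • ξ' := by
    funext i
    simp only [Pi.add_apply, Pi.smul_apply, smul_eq_mul, hp, hq]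
    rw [div_mul_eq_mul_div, div_mul_eq_mul_div, ← add_div, eq_div_iff hξ]
    fin_cases i
    · simp only [br, hβ, Fin.zero_eta]; ring
    · simp only [br, hβ, Fin.mk_one]; ring
  have hbw : br (ξ + t₀ • ξ') w = (q - t₀ * p) * β := by
    conv_lhs => rw [hw']
    simp only [br, hβ, Pi.add_apply, Pi.smul_apply, smul_eq_mul]
    ring
  have hnorm : ‖ξ + t₀ • ξ'‖ ≤ S := by
    refine (norm_add_le _ _).trans ?_
    rw [norm_smul, Real.norm_eq_abs, hS]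
    have : |t₀| * ‖ξ'‖ ≤ 1 * ‖ξ'‖ := by gcongr
    linarith
  have h1 : |q - t₀ * p| ≤ ε * C1 * ‖w‖ := by
    rw [hbw, norm_mul, Real.norm_eq_abs, Real.norm_eq_abs] at hbr'
    have h2 : |q - t₀ * p| * |β| ≤ ε * (S * ‖w‖) := hbr'.trans (by gcongr)
    rw [← le_div_iff₀ hβ0] at h2
    calc _ ≤ _ := h2
      _ = _ := by rw [hC1]; ring
  have h2 : ‖w‖ ≤ |p| * S + ε * C1 * ‖ξ'‖ * ‖w‖ := by
    have e1 : w = p • (ξ + t₀ • ξ') + (q - t₀ * p) • ξ' := by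
      rw [hw']
      funext i
      simp only [Pi.add_apply, Pi.smul_apply, smul_eq_mul]
      ring
    calc ‖w‖ = ‖p • (ξ + t₀ • ξ') + (q - t₀ * p) • ξ'‖ := by rw [← e1]
      _ ≤ |p| * ‖ξ + t₀ • ξ'‖ + |q - t₀ * p| * ‖ξ'‖ := by
          refine (norm_add_le _ _).trans ?_
          rw [norm_smul, norm_smul, Real.norm_eq_abs, Real.norm_eq_abs]
      _ ≤ |p| * S + (ε * C1 * ‖w‖) * ‖ξ'‖ := by gcongr
      _ = _ := by ring
  have hw0 : 0 < ‖w‖ := norm_pos_iff.2 hw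
  have h3 : 2 * C1 * ‖ξ'‖ * ε ≤ 1 := by
    have : 0 ≤ 2 * C1 * S * ε := by positivity
    nlinarith
  have h4 : ‖w‖ ≤ 2 * S * |p| := by
    have : ε * C1 * ‖ξ'‖ * ‖w‖ ≤ 1 / 2 * ‖w‖ := by
      apply mul_le_mul_of_nonneg_right _ hw0.le
      linarith
    linarith
  have hp0 : p ≠ 0 := by
    rintro h0
    rw [h0, abs_zero, mul_zero] at h4
    linarith
  have hpa : 0 < |p| := abs_pos.2 hp0
  refine ⟨q / p, ⟨p, hp0, ?_⟩, ?_⟩
  · rw [smul_add, smul_smul, mul_div_cancel₀ _ hp0]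
    exact hw'
  · have e : q / p - t₀ = (q - t₀ * p) / p := by field_simp
    rw [e, abs_div, div_le_iff₀ hpa]
    calc |q - t₀ * p| ≤ ε * C1 * ‖w‖ := h1
      _ ≤ ε * C1 * (2 * S * |p|) := by gcongr
      _ = 2 * C1 * S * ε * |p| := by ring
      _ ≤ (2 * C1 * S + 2 * C1 * ‖ξ'‖ + 1) * ε * |p| := by
          gcongr
          have : 0 ≤ 2 * C1 * ‖ξ'‖ := by positivity
          linarith

end Pool.Agent.W279.TriR
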