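import Pool.Agent.W279.TriR.Open

/-!
# The dichotomy at the smooth points (helper279)
-/

set_option autoImplicit false

namespace Pool.Agent.W279.TriR

open Pool.Agent.W279.Tri

section rotation

variable {R : Type*} [CommRing R]

lemma T3_rot (c : Fin 3 → Fin 3 → Fin 3 → R) (p q r : Fin 3 → R) :
    T3 (rot c) r p q = T3 c p q r := by
  simp only [T3, rot]
  rw [Finset.sum_comm]
  refine Finset.sum_congr rfl fun i _ => ?_
  rw [Finset.sum_comm]
  refine Finset.sum_congr rfl fun j _ => Finset.sum_congr rfl fun k _ => ?_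
  ring

lemma SingX_rot {c : Fin 3 → Fin 3 → Fin 3 → R} {x y z : Fin 2 → R}
    (h : SingX (rot c) z x y) : SingX c x y z := by
  obtain ⟨h0, h1, h2⟩ := h
  simp only [T3_rot] at h0 h1 h2
  exact ⟨h1, h2, h0⟩

lemma coef_sw_rot (c : Fin 3 → Fin 3 → Fin 3 → R) (i : Fin 3) (y z : Fin 2 → R) :
    coef (sw (rot c)) i z y = coef c i y z := by
  simp only [coef, rot, sw]
  rw [Finset.sum_comm]
  refine Finset.sum_congr rfl fun j _ => Finset.sum_congr rfl fun k _ => ?_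
  ring

lemma coef_rot_rot (c : Fin 3 → Fin 3 → Fin 3 → R) (j : Fin 3) (x z : Fin 2 → R) :
    coef (rot (rot c)) j z x = coef (sw c) j x z := by
  simp only [coef, rot, sw]
  rw [Finset.sum_comm]
  refine Finset.sum_congr rfl fun i _ => Finset.sum_congr rfl fun k _ => ?_
  ring

lemma T3_lin_single (c : Fin 3 → Fin 3 → Fin 3 → R) (x y z e : Fin 2 → R) :
    PE c x y z e = ∑ a, e a * T3 c (mon x) (mon y) (dmon a z) := by
  rw [PE_fib, Pv_eq]
  refine Finset.sum_congr rfl fun a _ => ?_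
  rw [Gd_fib]

end rotation

variable {K : Type*} [Field K]

/-- the hypotheses on the form -/
structure Nice (c : Fin 3 → Fin 3 → Fin 3 → K) : Prop where
  n0 : NC c
  n1 : NC (sw c)
  n2 : NC (rot c)
  s : ∃ S : Set (Fin 3 → Fin 2 → AlgebraicClosure K), S.Finite ∧
    ∀ x y z : Fin 2 → AlgebraicClosure K, x ≠ 0 → y ≠ 0 → z ≠ 0 →
      SingX (fun i j k => algebraMap K (AlgebraicClosure K) (c i j k)) x y z →
        ∃ s ∈ S, ∀ i, ∃ t : AlgebraicClosure K, (![x, y, z] : Fin 3 → _) i = t • s i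

lemma Nice.rot {c : Fin 3 → Fin 3 → Fin 3 → K} (h : Nice c) : Nice (rot c) where
  n0 := h.n2
  n1 := by
    intro z y hz hy
    obtain ⟨i, hi⟩ := h.n0 y z hy hz
    refine ⟨i, fun h0 => hi ?_⟩
    rw [← coef_sw_rot]
    exact h0
  n2 := by
    intro z x hz hx
    obtain ⟨i, hi⟩ := h.n1 x z hx hz
    refine ⟨i, fun h0 => hi ?_⟩
    have := coef_rot_rot (fun i j k => algebraMap K (AlgebraicClosure K) (c i j k)) i x z
    exact this.symm.trans h0
  s := by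
    obtain ⟨S, hS, hS'⟩ := h.s
    refine ⟨(fun s => ![s 2, s 0, s 1]) '' S, hS.image _, fun z x y hz hx hy hs => ?_⟩
    obtain ⟨s, hs1, hs2⟩ := hS' x y z hx hy hz (SingX_rot
      (c := fun i j k => algebraMap K (AlgebraicClosure K) (c i j k)) hs)
    refine ⟨_, ⟨s, hs1, rfl⟩, fun i => ?_⟩
    fin_cases i
    · exact hs2 2
    · exact hs2 0
    · exact hs2 1

section finite

variable [NumberField K]

lemma Nice.bad0 {c : Fin 3 → Fin 3 → Fin 3 → K} (h : Nice c) : (Bad c).Finite := by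
  obtain ⟨S, hSf, hS⟩ := h.s
  have hb : ∀ (x s : Fin 2 → AlgebraicClosure K) (t : AlgebraicClosure K), x ≠ 0 → x = t • s →
      s ≠ 0 ∧ br x s = 0 := by
    intro x s t hx hxs
    refine ⟨fun h => hx ?_, ?_⟩
    · rw [hxs, h, smul_zero]
    · rw [hxs, br_smul_left, br_self, mul_zero]
  have hb0 : {t : K | ¬Good c ![t, 1]}.Finite := by
    refine finite_bad c h.n1 h.n2 (S := {v | v ≠ 0 ∧ ∃ s ∈ S, v = s 0}) ?_ (fun s hs => hs.1) ?_
    · exact (hSf.image fun s => s 0).subset (by rintro v ⟨-, s, hs, rfl⟩; exact ⟨s, hs, rfl⟩)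
    · intro x y z hx hy hz h
      obtain ⟨s, hs, h1⟩ := hS x y z hx hy hz h
      obtain ⟨t, ht⟩ := h1 0
      obtain ⟨k1, k2⟩ := hb x (s 0) t hx ht
      exact ⟨s 0, ⟨k1, s, hs, rfl⟩, k2⟩
  exact (hb0.image _).insert _

lemma Nice.bad1 {c : Fin 3 → Fin 3 → Fin 3 → K} (h : Nice c) : (Bad (sw c)).Finite := by
  obtain ⟨S, hSf, hS⟩ := h.s
  have hb : ∀ (x s : Fin 2 → AlgebraicClosure K) (t : AlgebraicClosure K), x ≠ 0 → x = t • s →
      s ≠ 0 ∧ br x s = 0 := by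
    intro x s t hx hxs
    refine ⟨fun h => hx ?_, ?_⟩
    · rw [hxs, h, smul_zero]
    · rw [hxs, br_smul_left, br_self, mul_zero]
  have hb1 : {t : K | ¬Good (sw c) ![t, 1]}.Finite := by
    refine finite_bad (sw c) h.n0 (NC_rot_sw h.n2) (S := {v | v ≠ 0 ∧ ∃ s ∈ S, v = s 1}) ?_
      (fun s hs => hs.1) ?_
    · exact (hSf.image fun s => s 1).subset (by rintro v ⟨-, s, hs, rfl⟩; exact ⟨s, hs, rfl⟩)
    · intro y x z hy hx hz h
      obtain ⟨s, hs, h1⟩ := hS x y z hx hy hz (SingX_sw h)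
      obtain ⟨t, ht⟩ := h1 1
      obtain ⟨k1, k2⟩ := hb y (s 1) t hy ht
      exact ⟨s 1, ⟨k1, s, hs, rfl⟩, k2⟩
  exact (hb1.image _).insert _

end finite

/-- the interior points of the closure, relative to the surface -/
def Int' (c : Fin 3 → Fin 3 → Fin 3 → K) (σ : K →+* ℝ) : Set (Fin 3 → Fin 2 → ℝ) :=
  {P | ∃ W ∈ nhds P, ∀ Q ∈ W, E (cr c σ) (Q 0) (Q 1) (Q 2) = 0 → Q ∈ Cl c σ}

/-- isolated rational points -/
def Iso (c : Fin 3 → Fin 3 → Fin 3 → K) (σ : K →+* ℝ) (P₀ : Fin 3 → Fin 2 → K) :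
    Set (Fin 3 → Fin 2 → ℝ) :=
  {P | Eqv P (fun i a => σ (P₀ i a)) ∧ ∃ W ∈ nhds P, ∀ Y, Pt c σ W Y → Eqv Y P₀}

lemma eqv_trans {F : Type*} [Field F] {P Q R : Fin 3 → Fin 2 → F} (h : Eqv P Q) (h' : Eqv Q R) :
    Eqv P R := by
  intro i
  obtain ⟨t, ht0, ht⟩ := h i
  obtain ⟨s, hs0, hs⟩ := h' i
  exact ⟨t * s, mul_ne_zero ht0 hs0, by rw [ht, hs, smul_smul]⟩

lemma eqv_of_map {σ : K →+* ℝ} {P Q : Fin 3 → Fin 2 → K} (hP : ∀ i, P i ≠ 0)
    (hQ : ∀ i, Q i ≠ 0) (h : Eqv (fun i a => σ (P i a)) (fun i a => σ (Q i a))) : Eqv P Q := by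
  intro i
  obtain ⟨t, ht0, ht⟩ := h i
  have h1 : br (fun a => σ (Q i a)) (fun a => σ (P i a)) = 0 := by
    have e : (fun a => σ (P i a)) = t • fun a => σ (Q i a) := ht
    rw [e, br_smul_right, br_self, mul_zero]
  rw [br_map, map_eq_zero] at h1
  exact (br_eq_zero_iff (hQ i) (hP i)).1 h1

/-- the dichotomy when the derivative in the third variable is not zero -/
theorem dich [NumberField K] {c : Fin 3 → Fin 3 → Fin 3 → K} (h : Nice c) :
    ∃ T : Set (Fin 3 → Fin 2 → K), T.Finite ∧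
      (∀ P ∈ T, (∀ i, P i ≠ 0) ∧ E c (P 0) (P 1) (P 2) = 0) ∧
      ∀ (σ : K →+* ℝ) (P : Fin 3 → Fin 2 → ℝ), (∀ i, P i ≠ 0) →
        E (cr c σ) (P 0) (P 1) (P 2) = 0 → (∃ e, PE (cr c σ) (P 0) (P 1) (P 2) e ≠ 0) →
        P ∈ Cl c σ → P ∈ Int' c σ ∨ ∃ P₀ ∈ T, P ∈ Iso c σ P₀ := by
  have hB0 := h.bad0
  have hB1 := h.bad1
  obtain ⟨T, hT, hT1, hT2⟩ := exists_T h.n2 hB0 hB1
  refine ⟨T, hT, hT1, fun σ x hx hxE hder hxC => ?_⟩
  have hnrm : ∀ U : Set (Fin 3 → Fin 2 → ℝ), ∀ y, Pt c σ U y →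
      Pt c σ U ![nrm (y 0), nrm (y 1), y 2] := by
    intro U y hy
    refine hy.smul fun i => ?_
    fin_cases i
    · exact nrm_spec (hy.1 0)
    · exact nrm_spec (hy.1 1)
    · exact ⟨1, one_ne_zero, (one_smul _ _).symm⟩
  by_cases hA : ∀ U ∈ nhds x, ∃ y, Pt c σ U y ∧
      (nrm (y 0) ∉ Bad c ∨ nrm (y 1) ∉ Bad (sw c))
  · left
    refine local_open hB0 hB1 hx hxE hder fun W hW => ?_
    obtain ⟨y, hy, hg⟩ := hA W hW
    exact ⟨_, hnrm W y hy, hg.imp good_of_not_bad good_of_not_bad⟩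
  · right
    push Not at hA
    obtain ⟨U₀, hU₀, hA⟩ := hA
    set T' := {P ∈ T | ¬Eqv x (fun i a => σ (P i a))} with hT'
    have hT'f : T'.Finite := hT.subset fun P hP => hP.1
    have hsep : ∀ P ∈ T', ∃ V ∈ nhds x, ∀ y, Pt c σ V y → ¬Eqv y P := by
      rintro P ⟨hPT, hPx⟩
      have : ∃ i, br (x i) (fun a => σ (P i a)) ≠ 0 := by
        by_contra hn
        push Not at hn
        apply hPx
        intro i
        have h1 := hn i
        rw [br_swap, neg_eq_zero] at h1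
        exact (br_eq_zero_iff (map_ne σ ((hT1 P hPT).1 i)) (hx i)).1 h1
      obtain ⟨i, hi⟩ := this
      refine ⟨{w | br (w i) (fun a => σ (P i a)) ≠ 0}, ?_, ?_⟩
      · refine IsOpen.mem_nhds ?_ hi
        exact isOpen_ne_fun (continuous_br (continuous_apply i) continuous_const)
          continuous_const
      · rintro y ⟨-, -, d, hd, hdy⟩ hyP
        obtain ⟨t, ht0, ht⟩ := hyP i
        apply hdy
        have e : (fun a => d i * σ (y i a)) = (d i * σ t) • fun a => σ (P i a) := by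
          funext a
          rw [ht]
          simp only [Pi.smul_apply, smul_eq_mul, map_mul]
          ring
        change br (fun a => d i * σ (y i a)) (fun a => σ (P i a)) = 0
        rw [e, br_smul_left, br_self, mul_zero]
    choose! V hV1 hV2 using hsep
    set U₁ := U₀ ∩ ⋂ P ∈ T', V P with hU₁
    have hU₁n : U₁ ∈ nhds x :=
      Filter.inter_mem hU₀ ((Filter.biInter_mem hT'f).2 hV1)
    have hall : ∀ y, Pt c σ U₁ y → ∃ P ∈ T, Eqv x (fun i a => σ (P i a)) ∧ Eqv y P := by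
      intro y hy
      have h0 := hA y (hy.mono Set.inter_subset_left)
      obtain ⟨P, hPT, hyP⟩ := hT2 y hy.1 hy.2.1 h0.1 h0.2
      by_cases hPx : Eqv x (fun i a => σ (P i a))
      · exact ⟨P, hPT, hPx, hyP⟩
      · have hPT' : P ∈ T' := ⟨hPT, hPx⟩
        exact absurd hyP (hV2 P hPT' y (hy.mono (Set.inter_subset_right.trans
          (Set.biInter_subset_of_mem hPT'))))
    obtain ⟨y, hy⟩ := hxC U₁ hU₁n
    obtain ⟨P₀, hP₀, hxP₀, -⟩ := hall y hy
    refine ⟨P₀, hP₀, hxP₀, U₁, hU₁n, fun y hy => ?_⟩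
    obtain ⟨P, hP, hxP, hyP⟩ := hall y hy
    exact eqv_trans hyP (eqv_of_map (σ := σ) (hT1 P hP).1 (hT1 P₀ hP₀).1
      (eqv_trans (Pool.Agent.W279.Tri.Eqv.symm hxP) hxP₀))

/-- rotation of the coordinates of a point -/
def rp {A : Type*} (P : Fin 3 → A) : Fin 3 → A := ![P 2, P 0, P 1]

lemma rp3 {A : Type*} (P : Fin 3 → A) : rp (rp (rp P)) = P := by
  funext i
  fin_cases i <;> rfl

lemma continuous_rp {A : Type*} [TopologicalSpace A] : Continuous (rp : (Fin 3 → A) → _) := by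
  refine continuous_pi fun i => ?_
  fin_cases i
  · exact continuous_apply 2
  · exact continuous_apply 0
  · exact continuous_apply 1

lemma Pt_rot {c : Fin 3 → Fin 3 → Fin 3 → K} {σ : K →+* ℝ} {W : Set (Fin 3 → Fin 2 → ℝ)}
    {Y : Fin 3 → Fin 2 → K} (h : Pt c σ (rp ⁻¹' W) Y) : Pt (rot c) σ W (rp Y) := by
  obtain ⟨h1, h2, d, hd, hdW⟩ := h
  refine ⟨fun i => ?_, ?_, rp d, fun i => ?_, ?_⟩
  · fin_cases i
    · exact h1 2
    · exact h1 0
    · exact h1 1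
  · exact (E_rot c (Y 0) (Y 1) (Y 2)).trans h2
  · fin_cases i
    · exact hd 2
    · exact hd 0
    · exact hd 1
  · have e : (fun i a => rp d i * σ (rp Y i a)) = rp (fun i a => d i * σ (Y i a)) := by
      funext i a
      fin_cases i <;> rfl
    rw [e]
    exact hdW

lemma Pt_rot' {c : Fin 3 → Fin 3 → Fin 3 → K} {σ : K →+* ℝ} {W : Set (Fin 3 → Fin 2 → ℝ)}
    {Y : Fin 3 → Fin 2 → K} (h : Pt (rot c) σ ((fun P => rp (rp P)) ⁻¹' W) Y) :
    Pt c σ W (rp (rp Y)) := by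
  obtain ⟨h1, h2, d, hd, hdW⟩ := h
  refine ⟨fun i => ?_, ?_, rp (rp d), fun i => ?_, ?_⟩
  · fin_cases i
    · exact h1 1
    · exact h1 2
    · exact h1 0
  · exact (E_rot c (Y 1) (Y 2) (Y 0)).symm.trans h2
  · fin_cases i
    · exact hd 1
    · exact hd 2
    · exact hd 0
  · have e : (fun i a => rp (rp d) i * σ (rp (rp Y) i a)) =
        rp (rp (fun i a => d i * σ (Y i a))) := by
      funext i a
      fin_cases i <;> rfl
    rw [e]
    exact hdW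

lemma Cl_rot {c : Fin 3 → Fin 3 → Fin 3 → K} {σ : K →+* ℝ} {P : Fin 3 → Fin 2 → ℝ} :
    rp P ∈ Cl (rot c) σ ↔ P ∈ Cl c σ := by
  constructor
  · intro h W hW
    have h1 : (fun P => rp (rp P)) ⁻¹' W ∈ nhds (rp P) := by
      refine (continuous_rp.comp continuous_rp).continuousAt.preimage_mem_nhds ?_
      change W ∈ nhds (rp (rp (rp P)))
      rw [rp3]
      exact hW
    obtain ⟨Y, hY⟩ := h _ h1
    exact ⟨_, Pt_rot' hY⟩
  · intro h W hW
    obtain ⟨Y, hY⟩ := h (rp ⁻¹' W) (continuous_rp.continuousAt.preimage_mem_nhds hW)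
    exact ⟨_, Pt_rot hY⟩

lemma Int_rot {c : Fin 3 → Fin 3 → Fin 3 → K} {σ : K →+* ℝ} {P : Fin 3 → Fin 2 → ℝ}
    (h : rp P ∈ Int' (rot c) σ) : P ∈ Int' c σ := by
  obtain ⟨W, hW, h⟩ := h
  refine ⟨rp ⁻¹' W, continuous_rp.continuousAt.preimage_mem_nhds hW, fun Q hQ hE => ?_⟩
  rw [← Cl_rot]
  exact h _ hQ ((E_rot (cr c σ) (Q 0) (Q 1) (Q 2)).trans hE)

lemma Iso_rot {c : Fin 3 → Fin 3 → Fin 3 → K} {σ : K →+* ℝ} {P : Fin 3 → Fin 2 → ℝ}
    {P₀ : Fin 3 → Fin 2 → K} (h : rp P ∈ Iso (rot c) σ P₀) : P ∈ Iso c σ (rp (rp P₀)) := by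
  obtain ⟨h1, W, hW, h2⟩ := h
  constructor
  · intro i
    fin_cases i
    · exact h1 1
    · exact h1 2
    · exact h1 0
  · refine ⟨rp ⁻¹' W, continuous_rp.continuousAt.preimage_mem_nhds hW, fun Y hY => ?_⟩
    have := h2 _ (Pt_rot hY)
    intro i
    fin_cases i
    · exact this 1
    · exact this 2
    · exact this 0

/-- **the dichotomy at all smooth points** -/
theorem dichotomy [NumberField K] {c : Fin 3 → Fin 3 → Fin 3 → K} (h : Nice c) :
    ∃ T : Set (Fin 3 → Fin 2 → K), T.Finite ∧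
      (∀ P ∈ T, (∀ i, P i ≠ 0) ∧ E c (P 0) (P 1) (P 2) = 0) ∧
      ∀ (σ : K →+* ℝ) (P : Fin 3 → Fin 2 → ℝ), (∀ i, P i ≠ 0) →
        E (cr c σ) (P 0) (P 1) (P 2) = 0 → ¬SingX (cr c σ) (P 0) (P 1) (P 2) →
        P ∈ Cl c σ → P ∈ Int' c σ ∨ ∃ P₀ ∈ T, P ∈ Iso c σ P₀ := by
  obtain ⟨T₀, hf₀, h₀, h₀'⟩ := dich h
  obtain ⟨T₁, hf₁, h₁, h₁'⟩ := dich h.rot
  obtain ⟨T₂, hf₂, h₂, h₂'⟩ := dich h.rot.rot
  refine ⟨T₀ ∪ ((fun P => rp (rp P)) '' T₁) ∪ ((fun P => rp P) '' T₂),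
    (hf₀.union (hf₁.image _)).union (hf₂.image _), ?_, ?_⟩
  · rintro P ((hP | ⟨P, hP, rfl⟩) | ⟨P, hP, rfl⟩)
    · exact h₀ P hP
    · obtain ⟨a, b⟩ := h₁ P hP
      refine ⟨fun i => ?_, (E_rot c (P 1) (P 2) (P 0)).symm.trans b⟩
      fin_cases i
      · exact a 1
      · exact a 2
      · exact a 0
    · obtain ⟨a, b⟩ := h₂ P hP
      refine ⟨fun i => ?_, ?_⟩
      · fin_cases i
        · exact a 2
        · exact a 0
        · exact a 1
      · have e1 := E_rot (rot c) (P 1) (P 2) (P 0)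
        have e2 := E_rot c (P 2) (P 0) (P 1)
        exact e2.symm.trans (e1.symm.trans b)
  · intro σ P hP hE hs hC
    have hE1 : E (cr (rot c) σ) (rp P 0) (rp P 1) (rp P 2) = 0 :=
      (E_rot (cr c σ) (P 0) (P 1) (P 2)).trans hE
    have hE2 : E (cr (rot (rot c)) σ) (rp (rp P) 0) (rp (rp P) 1) (rp (rp P) 2) = 0 :=
      (E_rot (cr (rot c) σ) (rp P 0) (rp P 1) (rp P 2)).trans hE1
    have hP1 : ∀ i, rp P i ≠ 0 := by
      intro i
      fin_cases i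
      · exact hP 2
      · exact hP 0
      · exact hP 1
    have hP2 : ∀ i, rp (rp P) i ≠ 0 := by
      intro i
      fin_cases i
      · exact hP 1
      · exact hP 2
      · exact hP 0
    have single : ∀ (c : Fin 3 → Fin 3 → Fin 3 → ℝ) (x y z : Fin 2 → ℝ) (a : Fin 2),
        T3 c (mon x) (mon y) (dmon a z) ≠ 0 → ∃ e, PE c x y z e ≠ 0 := by
      intro c x y z a ha
      refine ⟨Pi.single a 1, ?_⟩
      rw [T3_lin_single, Finset.sum_eq_single a (fun b _ hb => by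
        rw [Pi.single_eq_of_ne hb, zero_mul]) (fun h => absurd (Finset.mem_univ _) h),
        Pi.single_eq_same, one_mul]
      exact ha
    have hcase : (∃ a, T3 (cr c σ) (dmon a (P 0)) (mon (P 1)) (mon (P 2)) ≠ 0) ∨
        (∃ a, T3 (cr c σ) (mon (P 0)) (dmon a (P 1)) (mon (P 2)) ≠ 0) ∨
        (∃ a, T3 (cr c σ) (mon (P 0)) (mon (P 1)) (dmon a (P 2)) ≠ 0) := by
      by_contra hn
      push Not at hn
      exact hs ⟨hn.1, hn.2.1, hn.2.2⟩
    rcases hcase with ⟨a, ha⟩ | ⟨a, ha⟩ | ⟨a, ha⟩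
    · -- the first variable
      have hd : T3 (cr (rot (rot c)) σ) (mon (rp (rp P) 0)) (mon (rp (rp P) 1))
          (dmon a (rp (rp P) 2)) ≠ 0 := by
        have e1 := T3_rot (cr (rot c) σ) (mon (P 2)) (dmon a (P 0)) (mon (P 1))
        have e2 := T3_rot (cr c σ) (dmon a (P 0)) (mon (P 1)) (mon (P 2))
        intro h0
        exact ha (e2.symm.trans (e1.symm.trans h0))
      rcases h₂' σ _ hP2 hE2 (single _ _ _ _ a hd) (Cl_rot.2 (Cl_rot.2 hC)) with h | ⟨P₀, h3, h4⟩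
      · exact Or.inl (Int_rot (Int_rot h))
      · refine Or.inr ⟨rp P₀, Or.inr ⟨P₀, h3, rfl⟩, ?_⟩
        have := Iso_rot (Iso_rot h4)
        rwa [rp3] at this
    · -- the second variable
      have hd : T3 (cr (rot c) σ) (mon (rp P 0)) (mon (rp P 1)) (dmon a (rp P 2)) ≠ 0 := by
        have e2 := T3_rot (cr c σ) (mon (P 0)) (dmon a (P 1)) (mon (P 2))
        intro h0
        exact ha (e2.symm.trans h0)
      rcases h₁' σ _ hP1 hE1 (single _ _ _ _ a hd) (Cl_rot.2 hC) with h | ⟨P₀, h3, h4⟩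
      · exact Or.inl (Int_rot h)
      · exact Or.inr ⟨rp (rp P₀), Or.inl (Or.inr ⟨P₀, h3, rfl⟩), Iso_rot h4⟩
    · rcases h₀' σ P hP hE (single _ _ _ _ a ha) hC with h | ⟨P₀, h3, h4⟩
      · exact Or.inl h
      · exact Or.inr ⟨P₀, Or.inl (Or.inl h3), h4⟩

end Pool.Agent.W279.TriR
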