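import Mathlib

/-!
# Monotonicity of the translation on a real curve of bidegree (2,2), local form (helper279)
-/

set_option autoImplicit false

namespace Pool.Agent.W279.TriR

/-- the coefficient of `s^k` -/
def co (m : Fin 3 → Fin 3 → ℝ) (k : Fin 3) (t : ℝ) : ℝ := m 0 k + m 1 k * t + m 2 k * t ^ 2

/-- the polynomial -/
def ff (m : Fin 3 → Fin 3 → ℝ) (t s : ℝ) : ℝ := co m 0 t + co m 1 t * s + co m 2 t * s ^ 2

/-- the difference quotient in the second variable -/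
def hh (m : Fin 3 → Fin 3 → ℝ) (t s s' : ℝ) : ℝ := co m 1 t + co m 2 t * (s + s')

/-- the difference quotient in the first variable -/
def kk (m : Fin 3 → Fin 3 → ℝ) (s t t' : ℝ) : ℝ :=
  (m 1 0 + m 1 1 * s + m 1 2 * s ^ 2) + (m 2 0 + m 2 1 * s + m 2 2 * s ^ 2) * (t + t')

lemma ff_sub (m : Fin 3 → Fin 3 → ℝ) (t s s' : ℝ) :
    ff m t s - ff m t s' = (s - s') * hh m t s s' := by
  unfold ff hh; ring

lemma ff_sub' (m : Fin 3 → Fin 3 → ℝ) (t t' s : ℝ) :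
    ff m t s - ff m t' s = (t - t') * kk m s t t' := by
  unfold ff kk co; ring

lemma hh_symm (m : Fin 3 → Fin 3 → ℝ) (t s s' : ℝ) : hh m t s s' = hh m t s' s := by
  unfold hh; ring

lemma curve_rel {m : Fin 3 → Fin 3 → ℝ} {t s t' s' : ℝ} (h : ff m t s = 0)
    (h' : ff m t' s' = 0) : (s - s') * hh m t s s' = -((t - t') * kk m s' t t') := by
  have h1 := ff_sub m t s s'
  have h2 := ff_sub' m t t' s'
  linarith

/-- the denominator of the invariant -/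
def Ph (m : Fin 3 → Fin 3 → ℝ) (t s t' s' : ℝ) : ℝ := hh m t s s' * hh m t' s s'

lemma Ph_symm (m : Fin 3 → Fin 3 → ℝ) (t s t' s' : ℝ) : Ph m t s t' s' = Ph m t' s' t s := by
  unfold Ph hh; ring

lemma Ph_sub (m : Fin 3 → Fin 3 → ℝ) (t s t2 s2 t1 s1 : ℝ) :
    Ph m t s t1 s1 - Ph m t2 s2 t1 s1 =
      (t - t2) * (((m 1 1 + m 2 1 * (t + t2)) + (m 1 2 + m 2 2 * (t + t2)) * (s + s1)) *
        hh m t1 s s1) +
      (s - s2) * (co m 2 t2 * hh m t1 s s1 + hh m t2 s2 s1 * co m 2 t1) := by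
  unfold Ph hh co; ring

lemma exists_bound {n : ℕ} (F : (Fin n → ℝ) → ℝ) (hF : Continuous F) :
    ∃ L : ℝ, 0 ≤ L ∧ ∀ x : Fin n → ℝ, (∀ i, |x i| ≤ 1) → |F x| ≤ L := by
  obtain ⟨L, hL⟩ := (isCompact_closedBall (0 : Fin n → ℝ) 1).exists_bound_of_continuousOn
    hF.continuousOn
  refine ⟨max L 0, le_max_right _ _, fun x hx => ?_⟩
  have h1 : x ∈ Metric.closedBall (0 : Fin n → ℝ) 1 := by
    rw [Metric.mem_closedBall, dist_zero_right, pi_norm_le_iff_of_nonneg zero_le_one]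
    intro i
    rw [Real.norm_eq_abs]
    exact hx i
  exact (hL x h1).trans (le_max_left _ _)

/-- the local properties of the curve near the origin -/
structure Box (m : Fin 3 → Fin 3 → ℝ) (r c M : ℝ) : Prop where
  hr : 0 < r
  hr1 : r ≤ 1
  hc : 0 < c
  hM : 0 ≤ M
  lip : ∀ t s t' s' : ℝ, |t| ≤ r → |s| ≤ r → |t'| ≤ r → |s'| ≤ r → ff m t s = 0 →
    ff m t' s' = 0 → |s - s'| ≤ M * |t - t'|
  pos : ∀ t s t' s' : ℝ, |t| ≤ r → |s| ≤ r → |t'| ≤ r → |s'| ≤ r → c ≤ Ph m t s t' s'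
  mono : ∀ t₀ s₀ t₁ s₁ t₂ s₂ : ℝ, |t₀| ≤ r → |s₀| ≤ r → |t₁| ≤ r → |s₁| ≤ r → |t₂| ≤ r →
    |s₂| ≤ r → ff m t₀ s₀ = 0 → ff m t₁ s₁ = 0 → ff m t₂ s₂ = 0 → t₀ < t₁ → t₂ ≠ t₀ → t₂ ≠ t₁ →
    Ph m t₀ s₀ t₁ s₁ * (t₁ - t₂) ^ 2 = Ph m t₁ s₁ t₂ s₂ * (t₀ - t₁) ^ 2 → t₁ < t₂

set_option maxHeartbeats 1000000 in
theorem exists_box {m : Fin 3 → Fin 3 → ℝ} (h1 : m 0 1 ≠ 0) :
    ∃ r c M, Box m r c M := by
  -- the bounds
  obtain ⟨K, hK0, hK⟩ := exists_bound (n := 3) (fun x => kk m (x 0) (x 1) (x 2)) (by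
    unfold kk; fun_prop)
  obtain ⟨L₁, hL10, hL1⟩ := exists_bound (n := 5) (fun x =>
    ((m 1 1 + m 2 1 * (x 0 + x 1)) + (m 1 2 + m 2 2 * (x 0 + x 1)) * (x 2 + x 3)) *
        hh m (x 4) (x 2) (x 3)) (by unfold hh co; fun_prop)
  obtain ⟨L₂, hL20, hL2⟩ := exists_bound (n := 5) (fun x =>
    (co m 2 (x 0) * hh m (x 1) (x 2) (x 3) + hh m (x 0) (x 4) (x 3) * co m 2 (x 1))) (by
      unfold hh co; fun_prop)
  have hm : 0 < |m 0 1| := abs_pos.2 h1
  -- the neighbourhood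
  have hcont : Continuous fun x : Fin 3 → ℝ => |hh m (x 0) (x 1) (x 2) - m 0 1| := by
    unfold hh co; fun_prop
  have h0 : |hh m ((0 : Fin 3 → ℝ) 0) ((0 : Fin 3 → ℝ) 1) ((0 : Fin 3 → ℝ) 2) - m 0 1| <
      |m 0 1| / 2 := by
    simp [hh, co]
    exact h1
  have hev := hcont.continuousAt.eventually_lt (continuousAt_const (y := |m 0 1| / 2)) h0
  obtain ⟨r₀, hr₀, hball⟩ := Metric.eventually_nhds_iff.1 hev
  have hnear : ∀ t s s' : ℝ, |t| < r₀ → |s| < r₀ → |s'| < r₀ →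
      |hh m t s s' - m 0 1| < |m 0 1| / 2 := by
    intro t s s' ht hs hs'
    have := @hball ![t, s, s'] (by
      rw [dist_zero_right, pi_norm_lt_iff hr₀]
      intro i
      rw [Real.norm_eq_abs]
      fin_cases i
      · exact ht
      · exact hs
      · exact hs')
    exact this
  set M : ℝ := K / (|m 0 1| / 2) with hMdef
  have hM0 : 0 ≤ M := by positivity
  set c : ℝ := (m 0 1) ^ 2 / 4 with hcdef
  have hc0 : 0 < c := by
    have : 0 < m 0 1 ^ 2 := by positivity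
    rw [hcdef]; linarith
  set L : ℝ := L₁ + L₂ * M with hLdef
  have hL0 : 0 ≤ L := by positivity
  set r : ℝ := min (min 1 (r₀ / 2)) (c / (4 * (L + 1))) with hrdef
  have hr : 0 < r := by positivity
  have hr1 : r ≤ 1 := (min_le_left _ _).trans (min_le_left _ _)
  have hr2 : r < r₀ := lt_of_le_of_lt ((min_le_left _ _).trans (min_le_right _ _)) (by linarith)
  have hr3 : r ≤ c / (4 * (L + 1)) := min_le_right _ _
  have hlow : ∀ t s s' : ℝ, |t| ≤ r → |s| ≤ r → |s'| ≤ r → |m 0 1| / 2 ≤ |hh m t s s'| := by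
    intro t s s' ht hs hs'
    have := hnear t s s' (by linarith) (by linarith) (by linarith)
    have h2 := abs_sub_abs_le_abs_sub (m 0 1) (hh m t s s')
    rw [abs_sub_comm] at h2
    linarith
  have hpos : ∀ t s t' s' : ℝ, |t| ≤ r → |s| ≤ r → |t'| ≤ r → |s'| ≤ r →
      c ≤ Ph m t s t' s' := by
    intro t s t' s' ht hs ht' hs'
    have a1 := hnear t s s' (by linarith) (by linarith) (by linarith)
    have a2 := hnear t' s s' (by linarith) (by linarith) (by linarith)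
    rw [abs_lt] at a1 a2
    unfold Ph
    rw [hcdef]
    rcases lt_or_gt_of_ne h1 with h | h
    · rw [abs_of_neg h] at a1 a2
      nlinarith [a1.1, a1.2, a2.1, a2.2]
    · rw [abs_of_pos h] at a1 a2
      nlinarith [a1.1, a1.2, a2.1, a2.2]
  have hlip : ∀ t s t' s' : ℝ, |t| ≤ r → |s| ≤ r → |t'| ≤ r → |s'| ≤ r → ff m t s = 0 →
      ff m t' s' = 0 → |s - s'| ≤ M * |t - t'| := by
    intro t s t' s' ht hs ht' hs' h h'
    have e := congrArg abs (curve_rel h h')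
    rw [abs_mul, abs_neg, abs_mul] at e
    have a1 := hlow t s s' ht hs hs'
    have a2 : |kk m s' t t'| ≤ K := by
      refine hK ![s', t, t'] fun i => ?_
      fin_cases i
      · exact hs'.trans hr1
      · exact ht.trans hr1
      · exact ht'.trans hr1
    rw [hMdef, div_mul_eq_mul_div, le_div_iff₀ (by positivity)]
    calc |s - s'| * (|m 0 1| / 2) ≤ |s - s'| * |hh m t s s'| := by gcongr
      _ = |t - t'| * |kk m s' t t'| := e
      _ ≤ |t - t'| * K := by gcongr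
      _ = K * |t - t'| := by ring
  refine ⟨r, c, M, hr, hr1, hc0, hM0, hlip, hpos, ?_⟩
  intro t₀ s₀ t₁ s₁ t₂ s₂ ht₀ hs₀ ht₁ hs₁ ht₂ hs₂ hf0 hf1 hf2 h01 h20 h21 heq
  by_contra hn
  push Not at hn
  have hlt : t₂ < t₁ := lt_of_le_of_ne hn h21
  have key := Ph_sub m t₀ s₀ t₂ s₂ t₁ s₁
  have b1 := hL1 ![t₀, t₂, s₀, s₁, t₁] (by
    intro i
    fin_cases i
    · exact ht₀.trans hr1
    · exact ht₂.trans hr1
    · exact hs₀.trans hr1
    · exact hs₁.trans hr1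
    · exact ht₁.trans hr1)
  have b2 := hL2 ![t₂, t₁, s₀, s₁, s₂] (by
    intro i
    fin_cases i
    · exact ht₂.trans hr1
    · exact ht₁.trans hr1
    · exact hs₀.trans hr1
    · exact hs₁.trans hr1
    · exact hs₂.trans hr1)
  simp only [Matrix.cons_val_zero, Matrix.cons_val_one, Matrix.cons_val] at b1 b2
  have b3 : |Ph m t₀ s₀ t₁ s₁ - Ph m t₂ s₂ t₁ s₁| ≤ L * |t₀ - t₂| := by
    rw [key]
    refine (abs_add_le _ _).trans ?_
    have b4 := hlip t₀ s₀ t₂ s₂ ht₀ hs₀ ht₂ hs₂ hf0 hf2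
    have c1 := mul_le_mul_of_nonneg_left b1 (abs_nonneg (t₀ - t₂))
    have c2 := mul_le_mul_of_nonneg_left b2 (abs_nonneg (s₀ - s₂))
    rw [← abs_mul] at c1 c2
    have c3 := mul_le_mul_of_nonneg_right b4 hL20
    calc _ ≤ |t₀ - t₂| * L₁ + |s₀ - s₂| * L₂ := add_le_add c1 c2
      _ ≤ |t₀ - t₂| * L₁ + (M * |t₀ - t₂|) * L₂ := by linarith
      _ = L * |t₀ - t₂| := by rw [hLdef]; ring
  have b5 := hpos t₀ s₀ t₁ s₁ ht₀ hs₀ ht₁ hs₁
  set a : ℝ := t₁ - t₀ with ha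
  set b : ℝ := t₁ - t₂ with hb
  have ha0 : 0 < a := by rw [ha]; linarith
  have hb0 : 0 < b := by rw [hb]; linarith
  have hab : t₀ - t₂ = b - a := by rw [ha, hb]; ring
  have hab0 : 0 < |b - a| := abs_pos.2 (fun h => h20 (by rw [← hab] at h; linarith))
  rw [hab] at b3
  have e1 : (b - a) * (b + a) * Ph m t₀ s₀ t₁ s₁ =
      -(a ^ 2 * (Ph m t₀ s₀ t₁ s₁ - Ph m t₂ s₂ t₁ s₁)) := by
    rw [Ph_symm m t₁ s₁ t₂ s₂] at heq
    have e2 : (t₀ - t₁) ^ 2 = a ^ 2 := by rw [ha]; ring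
    rw [e2] at heq
    linear_combination heq
  have e3 := congrArg abs e1
  rw [abs_mul, abs_mul, abs_neg, abs_mul, abs_of_pos (show 0 < b + a by linarith),
    abs_of_pos (lt_of_lt_of_le hc0 b5), abs_of_nonneg (sq_nonneg a)] at e3
  have e4 : |b - a| * ((b + a) * Ph m t₀ s₀ t₁ s₁) ≤ |b - a| * (a ^ 2 * L) := by
    calc _ = a ^ 2 * |Ph m t₀ s₀ t₁ s₁ - Ph m t₂ s₂ t₁ s₁| := by rw [← e3]; ring
      _ ≤ a ^ 2 * (L * |b - a|) := by gcongr
      _ = _ := by ring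
  have e5 : (b + a) * Ph m t₀ s₀ t₁ s₁ ≤ a ^ 2 * L := le_of_mul_le_mul_left e4 hab0
  have e6 : a * c ≤ a * (a * L) := by
    calc a * c ≤ (b + a) * Ph m t₀ s₀ t₁ s₁ := by
          apply mul_le_mul _ b5 hc0.le (by linarith)
          linarith
      _ ≤ _ := e5
      _ = _ := by ring
  have e7 : c ≤ a * L := le_of_mul_le_mul_left e6 ha0
  have e8 : a ≤ 2 * r := by
    rw [ha]
    have := (abs_le.1 ht₁).2
    have := (abs_le.1 ht₀).1
    linarith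
  have e9 : r * (4 * (L + 1)) ≤ c := by
    rw [le_div_iff₀ (by positivity)] at hr3
    exact hr3
  nlinarith

end Pool.Agent.W279.TriR
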