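import Pool.Agent.W279.TriR.Vert

/-!
# The closure of the rational points is open at smooth points (helper279)
-/

set_option autoImplicit false

namespace Pool.Agent.W279.TriR

open Pool.Agent.W279.Tri

variable {K : Type*} [Field K]

/-- rational points are dense over the square -/
theorem full {c : Fin 3 → Fin 3 → Fin 3 → K} {σ : K →+* ℝ} {a₀ b₀ a₁ b₁ a₂ b₂ : Fin 2 → ℝ}
    (h₀ : br a₀ b₀ ≠ 0) (h₁ : br a₁ b₁ ≠ 0) (h₂ : br a₂ b₂ ≠ 0) {δ δ' : ℝ} (hδ : 0 < δ)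
    (hδ' : 0 < δ') (hbox : BoxS (cr c σ) a₀ b₀ a₁ b₁ a₂ b₂ δ δ') (hb0 : (Bad c).Finite)
    (hb1 : (Bad (sw c)).Finite) {X Y Z : Fin 2 → K} {x y z : ℝ}
    (hP : RP c σ a₀ b₀ a₁ b₁ a₂ b₂ X Y Z x y z) (hx : |x| < δ)
    (hy : |y| < δ) (hz : |z| ≤ δ') (hg : Good c X ∨ Good (sw c) Y) {s t ε : ℝ} (hs : |s| ≤ δ)
    (ht : |t| ≤ δ) (hε : 0 < ε) :
    ∃ (X' Y' Z' : Fin 2 → K) (x' y' z' : ℝ), RP c σ a₀ b₀ a₁ b₁ a₂ b₂ X' Y' Z' x' y' z' ∧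
      |x' - s| ≤ ε ∧ |y' - t| ≤ ε ∧ |x'| ≤ δ ∧ |y'| ≤ δ ∧ |z'| ≤ δ' := by
  have hbs : BoxS (cr (sw c) σ) a₁ b₁ a₀ b₀ a₂ b₂ δ δ' := hbox.swap
  rcases hg with hg | hg
  · obtain ⟨Y', Z', y', z', hP', hyt, hyδ, hzδ, hg'⟩ :=
      vert h₁ h₂ hδ hδ' hbox hb1 hP hx.le hy hz hg ht hε
    obtain ⟨X', Z'', x', z'', hP'', hxs, hxδ, hzδ', -⟩ :=
      vert h₀ h₂ hδ hδ' hbs hb0 hP'.swap hyδ.le hx hzδ hg' hs hε
    exact ⟨X', Y', Z'', x', y', z'', hP''.swap, hxs, hyt, hxδ.le, hyδ.le, hzδ'⟩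
  · obtain ⟨X', Z', x', z', hP', hxs, hxδ, hzδ, hg'⟩ :=
      vert h₀ h₂ hδ hδ' hbs hb0 hP.swap hy.le hx hz hg hs hε
    obtain ⟨Y', Z'', y', z'', hP'', hyt, hyδ, hzδ', -⟩ :=
      vert h₁ h₂ hδ hδ' hbox hb1 hP'.swap hxδ.le hy hzδ hg' ht hε
    exact ⟨X', Y', Z'', x', y', z'', hP'', hxs, hyt, hxδ.le, hyδ.le, hzδ'⟩

lemma continuous_E (c : Fin 3 → Fin 3 → Fin 3 → ℝ) {T : Type*} [TopologicalSpace T]
    {f g h : T → Fin 2 → ℝ} (hf : Continuous f) (hg : Continuous g) (hh : Continuous h) :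
    Continuous fun t => E c (f t) (g t) (h t) := by
  simp only [E, coef, mon, Fin.sum_univ_three, Matrix.cons_val_zero, Matrix.cons_val_one,
    Matrix.cons_val]
  fun_prop

lemma RP.E0 {c : Fin 3 → Fin 3 → Fin 3 → K} {σ : K →+* ℝ} {a₀ b₀ a₁ b₁ a₂ b₂ : Fin 2 → ℝ}
    {X Y Z : Fin 2 → K} {x y z : ℝ} (h : RP c σ a₀ b₀ a₁ b₁ a₂ b₂ X Y Z x y z) :
    E (cr c σ) (a₀ + x • b₀) (a₁ + y • b₁) (a₂ + z • b₂) = 0 := by
  obtain ⟨p, hp, hpe⟩ := h.hx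
  obtain ⟨q, hq, hqe⟩ := h.hy
  obtain ⟨r, hr, hre⟩ := h.hz
  have e : E (cr c σ) (fun i => σ (X i)) (fun i => σ (Y i)) (fun i => σ (Z i)) = 0 := by
    have h1 := G_map σ (fib c X) Y Z
    rw [G_fib, h.hE, map_zero] at h1
    rw [← G_fib, ← h1]
    congr 1
    funext j k
    exact fib_map σ c X j k
  rw [hpe, hqe, hre, E_smul] at e
  have : p ^ 2 * q ^ 2 * r ^ 2 ≠ 0 :=
    mul_ne_zero (mul_ne_zero (pow_ne_zero 2 hp) (pow_ne_zero 2 hq)) (pow_ne_zero 2 hr)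
  exact (mul_eq_zero.1 e).resolve_left this

/-- the rational points are dense in the surface over the square -/
theorem full' {c : Fin 3 → Fin 3 → Fin 3 → K} {σ : K →+* ℝ} {a₀ b₀ a₁ b₁ a₂ b₂ : Fin 2 → ℝ}
    (h₀ : br a₀ b₀ ≠ 0) (h₁ : br a₁ b₁ ≠ 0) (h₂ : br a₂ b₂ ≠ 0) {δ δ' : ℝ} (hδ : 0 < δ)
    (hδ' : 0 < δ') (hbox : BoxS (cr c σ) a₀ b₀ a₁ b₁ a₂ b₂ δ δ') (hb0 : (Bad c).Finite)
    (hb1 : (Bad (sw c)).Finite) {X Y Z : Fin 2 → K} {x y z : ℝ}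
    (hP : RP c σ a₀ b₀ a₁ b₁ a₂ b₂ X Y Z x y z) (hx : |x| < δ)
    (hy : |y| < δ) (hz : |z| ≤ δ') (hg : Good c X ∨ Good (sw c) Y) {s t w ε : ℝ} (hs : |s| ≤ δ)
    (ht : |t| ≤ δ) (hw : |w| ≤ δ')
    (h0 : E (cr c σ) (a₀ + s • b₀) (a₁ + t • b₁) (a₂ + w • b₂) = 0) (hε : 0 < ε) :
    ∃ (X' Y' Z' : Fin 2 → K) (x' y' z' : ℝ), RP c σ a₀ b₀ a₁ b₁ a₂ b₂ X' Y' Z' x' y' z' ∧
      |x' - s| ≤ ε ∧ |y' - t| ≤ ε ∧ |z' - w| ≤ ε := by
  set O : Set (ℝ × ℝ × ℝ) := {p | ∃ X Y Z : Fin 2 → K,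
    RP c σ a₀ b₀ a₁ b₁ a₂ b₂ X Y Z p.1 p.2.1 p.2.2} with hO
  have hOf : ∀ p ∈ closure O,
      E (cr c σ) (a₀ + p.1 • b₀) (a₁ + p.2.1 • b₁) (a₂ + p.2.2 • b₂) = 0 := by
    have h1 : IsClosed {p : ℝ × ℝ × ℝ |
        E (cr c σ) (a₀ + p.1 • b₀) (a₁ + p.2.1 • b₁) (a₂ + p.2.2 • b₂) = 0} :=
      isClosed_eq (continuous_E _ (by fun_prop) (by fun_prop) (by fun_prop)) continuous_const
    have h2 : O ⊆ {p : ℝ × ℝ × ℝ |
        E (cr c σ) (a₀ + p.1 • b₀) (a₁ + p.2.1 • b₁) (a₂ + p.2.2 • b₂) = 0} := by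
      rintro p ⟨X, Y, Z, hn⟩
      exact hn.E0
    intro p hp
    exact closure_minimal h2 h1 hp
  set T : Set (ℝ × ℝ × ℝ) := closure O ∩
    (Set.Icc (-δ) δ ×ˢ (Set.Icc (-δ) δ ×ˢ Set.Icc (-δ') δ')) with hT
  have hTc : IsCompact T :=
    (isCompact_Icc.prod (isCompact_Icc.prod isCompact_Icc)).inter_left isClosed_closure
  set S : Set (ℝ × ℝ) := (fun p : ℝ × ℝ × ℝ => (p.1, p.2.1)) '' T with hS
  have hSc : IsClosed S := (hTc.image (by fun_prop)).isClosed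
  have hst : (s, t) ∈ S := by
    rw [← hSc.closure_eq, Metric.mem_closure_iff]
    intro ε hε
    obtain ⟨X', Y', Z', x', y', z', hn, g1, g2, g3, g4, g5⟩ := full h₀ h₁ h₂ hδ hδ' hbox hb0 hb1
      hP hx hy hz hg hs ht (show 0 < ε / 2 by linarith)
    refine ⟨(x', y'), ⟨(x', y', z'), ⟨subset_closure ⟨X', Y', Z', hn⟩, abs_le.1 g3, abs_le.1 g4,
      abs_le.1 g5⟩, rfl⟩, ?_⟩
    rw [dist_comm, Prod.dist_eq, max_lt_iff, Real.dist_eq, Real.dist_eq]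
    constructor <;> linarith
  obtain ⟨⟨s', t', w'⟩, ⟨hcl, k1, k2, k3⟩, heq⟩ := hst
  simp only [Prod.mk.injEq] at heq
  obtain ⟨rfl, rfl⟩ := heq
  have hw' : w = w' := hbox.uniq s' t' w w' hs ht hw (abs_le.2 k3) h0 (hOf _ hcl)
  subst hw'
  rw [Metric.mem_closure_iff] at hcl
  obtain ⟨⟨x', y', z'⟩, ⟨X', Y', Z', hn⟩, hd⟩ := hcl ε hε
  rw [dist_comm, Prod.dist_eq, Prod.dist_eq, max_lt_iff, max_lt_iff, Real.dist_eq, Real.dist_eq,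
    Real.dist_eq] at hd
  exact ⟨X', Y', Z', x', y', z', hn, hd.1.le, hd.2.1.le, hd.2.2.le⟩

/-- the closure of the rational points -/
def Cl (c : Fin 3 → Fin 3 → Fin 3 → K) (σ : K →+* ℝ) : Set (Fin 3 → Fin 2 → ℝ) :=
  {Q | ∀ W ∈ nhds Q, ∃ Y, Pt c σ W Y}

/-- the orthogonal vector -/
def perp (a : Fin 2 → ℝ) : Fin 2 → ℝ := ![-a 1, a 0]

lemma br_perp {a : Fin 2 → ℝ} (ha : a ≠ 0) : br a (perp a) ≠ 0 := by
  have e : br a (perp a) = a 0 ^ 2 + a 1 ^ 2 := by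
    simp only [br, perp, Matrix.cons_val_zero, Matrix.cons_val_one]
    ring
  rw [e]
  intro h
  apply ha
  have h0 : a 0 = 0 := by nlinarith [sq_nonneg (a 0), sq_nonneg (a 1)]
  have h1 : a 1 = 0 := by nlinarith [sq_nonneg (a 0), sq_nonneg (a 1)]
  funext i
  fin_cases i
  · exact h0
  · exact h1

/-- the two coordinates of a vector in the frame -/
noncomputable def pc (a w : Fin 2 → ℝ) : ℝ := br w (perp a) / br a (perp a)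

/-- the second coordinate -/
noncomputable def qc (a w : Fin 2 → ℝ) : ℝ := br a w / br a (perp a)

lemma frame_eq {a : Fin 2 → ℝ} (ha : a ≠ 0) (w : Fin 2 → ℝ) :
    w = pc a w • a + qc a w • perp a := by
  have hb := br_perp ha
  funext i
  simp only [Pi.add_apply, Pi.smul_apply, smul_eq_mul, pc, qc]
  rw [div_mul_eq_mul_div, div_mul_eq_mul_div, ← add_div, eq_div_iff hb]
  fin_cases i
  · simp only [br, perp, Fin.zero_eta, Matrix.cons_val_zero, Matrix.cons_val_one]; ring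
  · simp only [br, perp, Fin.mk_one, Matrix.cons_val_zero, Matrix.cons_val_one]; ring

lemma frame_eq' {a w : Fin 2 → ℝ} (ha : a ≠ 0) (hw : pc a w ≠ 0) :
    w = pc a w • (a + (qc a w / pc a w) • perp a) := by
  conv_lhs => rw [frame_eq ha w]
  rw [smul_add, smul_smul, mul_div_cancel₀ _ hw]

lemma pc_self {a : Fin 2 → ℝ} (ha : a ≠ 0) : pc a a = 1 := div_self (br_perp ha)

lemma qc_self (a : Fin 2 → ℝ) : qc a a = 0 := by
  unfold qc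
  rw [br_self, zero_div]

/-- the chart neighbourhood -/
def Ch (P : Fin 3 → Fin 2 → ℝ) (δ : Fin 3 → ℝ) : Set (Fin 3 → Fin 2 → ℝ) :=
  {Q | ∀ i, pc (P i) (Q i) ≠ 0 ∧ |qc (P i) (Q i) / pc (P i) (Q i)| < δ i}

lemma Ch_mem {P : Fin 3 → Fin 2 → ℝ} (hP : ∀ i, P i ≠ 0) {δ : Fin 3 → ℝ} (hδ : ∀ i, 0 < δ i) :
    Ch P δ ∈ nhds P := by
  have h1 : ∀ i, ∀ᶠ Q : Fin 3 → Fin 2 → ℝ in nhds P,
      pc (P i) (Q i) ≠ 0 ∧ |qc (P i) (Q i) / pc (P i) (Q i)| < δ i := by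
    intro i
    have c1 : Continuous fun Q : Fin 3 → Fin 2 → ℝ => pc (P i) (Q i) := by
      unfold pc br; fun_prop
    have c2 : Continuous fun Q : Fin 3 → Fin 2 → ℝ => qc (P i) (Q i) := by
      unfold qc br; fun_prop
    have e1 : pc (P i) (P i) ≠ 0 := by rw [pc_self (hP i)]; exact one_ne_zero
    refine (c1.continuousAt.eventually_ne e1).and ?_
    refine (c2.continuousAt.div c1.continuousAt e1).abs.eventually_lt
      (continuousAt_const (y := δ i)) ?_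
    simp only [Pi.div_apply, qc_self, zero_div, abs_zero]
    exact hδ i
  exact Filter.eventually_all.2 h1

lemma Ch_at {P : Fin 3 → Fin 2 → ℝ} (hP : ∀ i, P i ≠ 0) {δ : Fin 3 → ℝ}
    {Q : Fin 3 → Fin 2 → ℝ} (hQ : Q ∈ Ch P δ) (i : Fin 3) :
    At (P i) (perp (P i)) (Q i) (qc (P i) (Q i) / pc (P i) (Q i)) :=
  ⟨_, (hQ i).1, frame_eq' (hP i) (hQ i).1⟩

lemma At.of_smul {a b u : Fin 2 → ℝ} {t s : ℝ} (hs : s ≠ 0) (h : At a b (s • u) t) :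
    At a b u t := by
  obtain ⟨p, hp, hpe⟩ := h
  refine ⟨s⁻¹ * p, mul_ne_zero (inv_ne_zero hs) hp, ?_⟩
  rw [mul_smul, ← hpe, smul_smul, inv_mul_cancel₀ hs, one_smul]

/-- polar form at the perpendicular vector -/
lemma PE_perp {c : Fin 3 → Fin 3 → Fin 3 → ℝ} {P : Fin 3 → Fin 2 → ℝ} (hP : P 2 ≠ 0)
    (h0 : E c (P 0) (P 1) (P 2) = 0) {e : Fin 2 → ℝ} (he : PE c (P 0) (P 1) (P 2) e ≠ 0) :
    PE c (P 0) (P 1) (P 2) (perp (P 2)) ≠ 0 := by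
  intro h
  apply he
  have e1 := frame_eq hP e
  rw [PE_fib, Pv_eq] at h ⊢
  have h2 : ∑ a, P 2 a * Gd (fib c (P 0)) (mon (P 1)) (dmon a (P 2)) = 0 := by
    rw [← Pv_eq, ← PE_fib]
    have e2 : P 2 + P 2 = (2 : ℝ) • P 2 := (two_smul ℝ _).symm
    have e3 := E_smul c 1 1 2 (P 0) (P 1) (P 2)
    rw [one_smul, one_smul] at e3
    unfold PE
    rw [e2, e3, h0]
    ring
  rw [Fin.sum_univ_two] at h h2 ⊢
  rw [e1]
  simp only [Pi.add_apply, Pi.smul_apply, smul_eq_mul]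
  linear_combination pc (P 2) e * h2 + qc (P 2) e * h

/-- **openness** -/
theorem local_open {c : Fin 3 → Fin 3 → Fin 3 → K} {σ : K →+* ℝ} (hb0 : (Bad c).Finite)
    (hb1 : (Bad (sw c)).Finite) {P : Fin 3 → Fin 2 → ℝ} (hP : ∀ i, P i ≠ 0)
    (h0 : E (cr c σ) (P 0) (P 1) (P 2) = 0)
    (hder : ∃ e, PE (cr c σ) (P 0) (P 1) (P 2) e ≠ 0)
    (hcl : ∀ W ∈ nhds P, ∃ Y, Pt c σ W Y ∧ (Good c (Y 0) ∨ Good (sw c) (Y 1))) :
    ∃ W ∈ nhds P, ∀ Q ∈ W, E (cr c σ) (Q 0) (Q 1) (Q 2) = 0 → Q ∈ Cl c σ := by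
  obtain ⟨e, he⟩ := hder
  have h1 := PE_perp (hP 2) h0 he
  obtain ⟨δ, δ', hδ, hδ', hbox⟩ := exists_boxS (a₀ := P 0) (b₀ := perp (P 0)) (a₁ := P 1)
    (b₁ := perp (P 1)) (a₂ := P 2) (b₂ := perp (P 2)) h0 h1
  set δδ : Fin 3 → ℝ := ![δ, δ, δ'] with hδδ
  have hδδ0 : ∀ i, 0 < δδ i := by
    intro i
    fin_cases i
    · exact hδ
    · exact hδ
    · exact hδ'
  have hCh := Ch_mem hP hδδ0
  obtain ⟨Y, ⟨hY0, hYE, d, hd, hdW⟩, hYg⟩ := hcl _ hCh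
  have hYat := fun i => (Ch_at hP hdW i).of_smul (u := fun a => σ (Y i a)) (hd i)
  refine ⟨Ch P δδ, hCh, fun Q hQ hQE => ?_⟩
  intro W' hW'
  have hQat := Ch_at hP hQ
  set x : Fin 3 → ℝ := fun i => qc (P i) (Q i) / pc (P i) (Q i) with hx
  -- the parametrisation
  set Φ : (Fin 3 → ℝ) → Fin 3 → Fin 2 → ℝ := fun x i =>
    pc (P i) (Q i) • (P i + x i • perp (P i)) with hΦ
  have hΦc : Continuous Φ := by
    rw [hΦ]
    fun_prop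
  have hΦx : Φ x = Q := by
    funext i
    exact (frame_eq' (hP i) (hQ i).1).symm
  have hpre : Φ ⁻¹' W' ∈ nhds x := hΦc.continuousAt.preimage_mem_nhds (by rw [hΦx]; exact hW')
  obtain ⟨ε, hε, hball⟩ := Metric.mem_nhds_iff.1 hpre
  have hE0 : E (cr c σ) (P 0 + x 0 • perp (P 0)) (P 1 + x 1 • perp (P 1))
      (P 2 + x 2 • perp (P 2)) = 0 := by
    have e1 := hQE
    rw [frame_eq' (hP 0) (hQ 0).1, frame_eq' (hP 1) (hQ 1).1, frame_eq' (hP 2) (hQ 2).1,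
      E_smul] at e1
    have : pc (P 0) (Q 0) ^ 2 * pc (P 1) (Q 1) ^ 2 * pc (P 2) (Q 2) ^ 2 ≠ 0 :=
      mul_ne_zero (mul_ne_zero (pow_ne_zero 2 (hQ 0).1) (pow_ne_zero 2 (hQ 1).1))
        (pow_ne_zero 2 (hQ 2).1)
    exact (mul_eq_zero.1 e1).resolve_left this
  obtain ⟨X', Y', Z', x', y', z', hn, g1, g2, g3⟩ := full' (br_perp (hP 0)) (br_perp (hP 1))
    (br_perp (hP 2)) hδ hδ' hbox hb0 hb1 ⟨hY0 0, hY0 1, hY0 2, hYE, hYat 0, hYat 1, hYat 2⟩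
    (hdW 0).2 (hdW 1).2 (hdW 2).2.le hYg (hQ 0).2.le (hQ 1).2.le (hQ 2).2.le hE0
    (show 0 < ε / 2 by linarith)
  obtain ⟨p, hp, hpe⟩ := hn.hx
  obtain ⟨q, hq, hqe⟩ := hn.hy
  obtain ⟨r, hr, hre⟩ := hn.hz
  refine ⟨![X', Y', Z'], ?_, hn.hE, ?_⟩
  · intro i
    fin_cases i
    · exact hn.hX
    · exact hn.hY
    · exact hn.hZ
  · refine ⟨![pc (P 0) (Q 0) * p⁻¹, pc (P 1) (Q 1) * q⁻¹, pc (P 2) (Q 2) * r⁻¹], ?_, ?_⟩
    · intro i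
      fin_cases i
      · exact mul_ne_zero (hQ 0).1 (inv_ne_zero hp)
      · exact mul_ne_zero (hQ 1).1 (inv_ne_zero hq)
      · exact mul_ne_zero (hQ 2).1 (inv_ne_zero hr)
    · have hmem : (![x', y', z'] : Fin 3 → ℝ) ∈ Metric.ball x ε := by
        rw [Metric.mem_ball, dist_pi_lt_iff hε]
        intro i
        rw [Real.dist_eq]
        fin_cases i
        · change |x' - x 0| < ε
          linarith
        · change |y' - x 1| < ε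
          linarith
        · change |z' - x 2| < ε
          linarith
      have hmem' := hball hmem
      have e : (fun i a => (![pc (P 0) (Q 0) * p⁻¹, pc (P 1) (Q 1) * q⁻¹,
          pc (P 2) (Q 2) * r⁻¹] : Fin 3 → ℝ) i * σ ((![X', Y', Z'] : Fin 3 → Fin 2 → K) i a)) =
          Φ ![x', y', z'] := by
        funext i a
        have key : ∀ {w : Fin 2 → ℝ} {s A : ℝ} {v : Fin 2 → ℝ}, s ≠ 0 → w = s • v →
            A * s⁻¹ * w a = A * v a := by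
          intro w s A v hs hw
          rw [hw, Pi.smul_apply, smul_eq_mul]
          field_simp
        fin_cases i
        · exact key hp hpe
        · exact key hq hqe
        · exact key hr hre
      rw [e]
      exact hmem'

end Pool.Agent.W279.TriR
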