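import Pool.Agent.W279.TriR.Fill
import Pool.Agent.W279.Tri.Tridegree

/-!
# Rational points in a box of the surface (helper279)
-/

set_option autoImplicit false

namespace Pool.Agent.W279.TriR

open Pool.Agent.W279.Tri

section ring

variable {R : Type*} [CommRing R]

/-- the polar form in the third variable -/
def PE (c : Fin 3 → Fin 3 → Fin 3 → R) (x y z e : Fin 2 → R) : R :=
  E c x y (z + e) - E c x y z - E c x y e

lemma PE_sw (c : Fin 3 → Fin 3 → Fin 3 → R) (x y z e : Fin 2 → R) :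
    PE (sw c) y x z e = PE c x y z e := by
  unfold PE
  rw [E_sw, E_sw, E_sw]

lemma PE_fib (c : Fin 3 → Fin 3 → Fin 3 → R) (x y z e : Fin 2 → R) :
    PE c x y z e = Pv (fib c x) y z e := by
  unfold PE Pv
  rw [G_fib, G_fib, G_fib]

lemma E_smul_one (c : Fin 3 → Fin 3 → Fin 3 → R) (t : R) (x y z : Fin 2 → R) :
    E c (t • x) y z = t ^ 2 * E c x y z := by
  have := E_smul c t 1 1 x y z
  rw [one_smul, one_smul] at this
  rw [this]
  ring

lemma PE_smul_one (c : Fin 3 → Fin 3 → Fin 3 → R) (t : R) (x y z e : Fin 2 → R) :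
    PE c (t • x) y z e = t ^ 2 * PE c x y z e := by
  unfold PE
  rw [E_smul_one, E_smul_one, E_smul_one]
  ring

lemma E_line (c : Fin 3 → Fin 3 → Fin 3 → R) (x y z e : Fin 2 → R) (t : R) :
    E c x y (z + t • e) = E c x y z + PE c x y z e * t + E c x y e * t ^ 2 := by
  rw [PE_fib, ← G_fib, ← G_fib, ← G_fib]
  simp only [G, Pv, mon, Fin.sum_univ_three, Pi.add_apply, Pi.smul_apply,
    smul_eq_mul, Matrix.cons_val_zero, Matrix.cons_val_one, Matrix.cons_val]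
  ring

end ring

lemma At.map_smul {a b : Fin 2 → ℝ} {K : Type*} [Field K] (σ : K →+* ℝ) {w w' : Fin 2 → K}
    {t : ℝ} (h : At a b (fun i => σ (w i)) t) {s : K} (hs : s ≠ 0) (hw : w = s • w') :
    At a b (fun i => σ (w' i)) t := by
  obtain ⟨p, hp, hpe⟩ := h
  refine ⟨(σ s)⁻¹ * p, mul_ne_zero (inv_ne_zero ((map_ne_zero σ).2 hs)) hp, ?_⟩
  rw [mul_smul, ← hpe]
  funext i
  have : σ s ≠ 0 := (map_ne_zero σ).2 hs
  rw [Pi.smul_apply, hw, Pi.smul_apply, smul_eq_mul, smul_eq_mul, map_mul]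
  field_simp

section surf

variable {K : Type*} [Field K]

/-- the real form -/
def cr (c : Fin 3 → Fin 3 → Fin 3 → K) (σ : K →+* ℝ) (i j k : Fin 3) : ℝ := σ (c i j k)

/-- a rational point with the given coordinates -/
structure RP (c : Fin 3 → Fin 3 → Fin 3 → K) (σ : K →+* ℝ) (a₀ b₀ a₁ b₁ a₂ b₂ : Fin 2 → ℝ)
    (X Y Z : Fin 2 → K) (x y z : ℝ) : Prop where
  hX : X ≠ 0
  hY : Y ≠ 0
  hZ : Z ≠ 0
  hE : E c X Y Z = 0
  hx : At a₀ b₀ (fun i => σ (X i)) x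
  hy : At a₁ b₁ (fun i => σ (Y i)) y
  hz : At a₂ b₂ (fun i => σ (Z i)) z

lemma RP.swap {c : Fin 3 → Fin 3 → Fin 3 → K} {σ : K →+* ℝ} {a₀ b₀ a₁ b₁ a₂ b₂ : Fin 2 → ℝ}
    {X Y Z : Fin 2 → K} {x y z : ℝ} (h : RP c σ a₀ b₀ a₁ b₁ a₂ b₂ X Y Z x y z) :
    RP (sw c) σ a₁ b₁ a₀ b₀ a₂ b₂ Y X Z y x z :=
  ⟨h.hY, h.hX, h.hZ, by rw [E_sw]; exact h.hE, h.hy, h.hx, h.hz⟩

/-- a box in which the third coordinate is determined by the first two -/
structure BoxS (c : Fin 3 → Fin 3 → Fin 3 → ℝ) (a₀ b₀ a₁ b₁ a₂ b₂ : Fin 2 → ℝ) (δ δ' : ℝ) :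
    Prop where
  root : ∀ x y z : ℝ, |x| ≤ δ → |y| ≤ δ → |z| ≤ δ' →
    E c (a₀ + x • b₀) (a₁ + y • b₁) (a₂ + z • b₂) = 0 →
      |z| ≤ δ' / 2 ∧ PE c (a₀ + x • b₀) (a₁ + y • b₁) (a₂ + z • b₂) b₂ ≠ 0
  uniq : ∀ x y z z' : ℝ, |x| ≤ δ → |y| ≤ δ → |z| ≤ δ' → |z'| ≤ δ' →
    E c (a₀ + x • b₀) (a₁ + y • b₁) (a₂ + z • b₂) = 0 →
    E c (a₀ + x • b₀) (a₁ + y • b₁) (a₂ + z' • b₂) = 0 → z = z'

lemma BoxS.swap {c : Fin 3 → Fin 3 → Fin 3 → ℝ} {a₀ b₀ a₁ b₁ a₂ b₂ : Fin 2 → ℝ} {δ δ' : ℝ}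
    (h : BoxS c a₀ b₀ a₁ b₁ a₂ b₂ δ δ') : BoxS (sw c) a₁ b₁ a₀ b₀ a₂ b₂ δ δ' where
  root x y z hx hy hz h0 := by
    rw [E_sw] at h0
    rw [PE_sw]
    exact h.root y x z hy hx hz h0
  uniq x y z z' hx hy hz hz' h0 h1 := by
    rw [E_sw] at h0 h1
    exact h.uniq y x z z' hy hx hz hz' h0 h1

theorem exists_boxS {c : Fin 3 → Fin 3 → Fin 3 → ℝ} {a₀ b₀ a₁ b₁ a₂ b₂ : Fin 2 → ℝ}
    (h0 : E c a₀ a₁ a₂ = 0) (h1 : PE c a₀ a₁ a₂ b₂ ≠ 0) :
    ∃ δ δ' : ℝ, 0 < δ ∧ 0 < δ' ∧ BoxS c a₀ b₀ a₁ b₁ a₂ b₂ δ δ' := by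
  set β : ℝ := |PE c a₀ a₁ a₂ b₂| / 2 with hβ
  have hβ0 : 0 < β := by
    have := abs_pos.2 h1
    rw [hβ]; linarith
  set H : (Fin 4 → ℝ) → ℝ := fun p => PE c (a₀ + p 0 • b₀) (a₁ + p 1 • b₁) a₂ b₂ +
    E c (a₀ + p 0 • b₀) (a₁ + p 1 • b₁) b₂ * (p 2 + p 3) with hH
  have hHc : Continuous H := by
    rw [hH]
    simp only [PE, E, coef, mon, Fin.sum_univ_three, Pi.add_apply, Pi.smul_apply, smul_eq_mul,
      Matrix.cons_val_zero, Matrix.cons_val_one, Matrix.cons_val]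
    fun_prop
  have hH0 : β < |H 0| := by
    have : H 0 = PE c a₀ a₁ a₂ b₂ := by
      simp [hH]
    rw [this, hβ]
    have := abs_pos.2 h1
    linarith
  obtain ⟨r, hr, hr'⟩ := Metric.eventually_nhds_iff.1
    ((continuousAt_const (y := β)).eventually_lt hHc.abs.continuousAt hH0)
  have hrH : ∀ x y z z' : ℝ, |x| ≤ r / 2 → |y| ≤ r / 2 → |z| ≤ r / 2 → |z'| ≤ r / 2 →
      β < |H ![x, y, z, z']| := by
    intro x y z z' hx hy hz hz'
    apply hr'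
    rw [dist_zero_right, pi_norm_lt_iff hr]
    intro i
    rw [Real.norm_eq_abs]
    fin_cases i
    · change |x| < r; linarith
    · change |y| < r; linarith
    · change |z| < r; linarith
    · change |z'| < r; linarith
  set C : (Fin 2 → ℝ) → ℝ := fun p => E c (a₀ + p 0 • b₀) (a₁ + p 1 • b₁) a₂ with hC
  have hCc : Continuous C := by
    rw [hC]
    simp only [PE, E, coef, mon, Fin.sum_univ_three, Pi.add_apply, Pi.smul_apply, smul_eq_mul,
      Matrix.cons_val_zero, Matrix.cons_val_one, Matrix.cons_val]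
    fun_prop
  have hC0 : |C 0| < β * (r / 4) := by
    have : C 0 = 0 := by
      simp [hC, h0]
    rw [this, abs_zero]
    positivity
  obtain ⟨s, hs, hs'⟩ := Metric.eventually_nhds_iff.1
    (hCc.abs.continuousAt.eventually_lt (continuousAt_const (y := β * (r / 4))) hC0)
  have hsC : ∀ x y : ℝ, |x| ≤ s / 2 → |y| ≤ s / 2 → |C ![x, y]| < β * (r / 4) := by
    intro x y hx hy
    apply hs'
    rw [dist_zero_right, pi_norm_lt_iff hs]
    intro i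
    rw [Real.norm_eq_abs]
    fin_cases i
    · change |x| < s; linarith
    · change |y| < s; linarith
  have hr2 : 0 ≤ r / 2 := by linarith
  have diff : ∀ x y z z' : ℝ,
      E c (a₀ + x • b₀) (a₁ + y • b₁) (a₂ + z • b₂) -
      E c (a₀ + x • b₀) (a₁ + y • b₁) (a₂ + z' • b₂) = (z - z') * H ![x, y, z, z'] := by
    intro x y z z'
    rw [E_line, E_line]
    simp only [hH, Matrix.cons_val_zero, Matrix.cons_val_one, Matrix.cons_val]
    ring
  refine ⟨min (r / 2) (s / 2), r / 2, by positivity, by linarith, ?_, ?_⟩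
  · intro x y z hx hy hz h
    have hx1 := hx.trans (min_le_left _ _)
    have hx2 := hx.trans (min_le_right _ _)
    have hy1 := hy.trans (min_le_left _ _)
    have hy2 := hy.trans (min_le_right _ _)
    constructor
    · have d := diff x y z 0
      rw [h, zero_smul, add_zero, sub_zero, zero_sub] at d
      have e := congrArg abs d
      rw [abs_neg, abs_mul] at e
      have h1 := hrH x y z 0 hx1 hy1 hz (by rw [abs_zero]; exact hr2)
      have h2 := hsC x y hx2 hy2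
      have h3 : |C ![x, y]| = |E c (a₀ + x • b₀) (a₁ + y • b₁) a₂| := rfl
      rw [h3, e] at h2
      have h4 : |z| * β ≤ |z| * |H ![x, y, z, 0]| := by gcongr
      have h5 : β * |z| ≤ β * (r / 4) := by
        calc β * |z| = |z| * β := mul_comm _ _
          _ ≤ _ := h4
          _ ≤ _ := h2.le
      have := le_of_mul_le_mul_left h5 hβ0
      linarith
    · have e : PE c (a₀ + x • b₀) (a₁ + y • b₁) (a₂ + z • b₂) b₂ = H ![x, y, z, z] := by
        have e1 : a₂ + z • b₂ + b₂ = a₂ + (z + 1) • b₂ := by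
          rw [add_assoc, add_smul, one_smul]
        unfold PE
        rw [e1, E_line, E_line]
        simp only [hH, Matrix.cons_val_zero, Matrix.cons_val_one, Matrix.cons_val]
        ring
      rw [e]
      have := hrH x y z z hx1 hy1 hz hz
      exact abs_pos.1 (hβ0.trans this)
  · intro x y z z' hx hy hz hz' h h'
    have d := diff x y z z'
    rw [h, h', sub_zero] at d
    have h1 := hrH x y z z' (hx.trans (min_le_left _ _)) (hy.trans (min_le_left _ _)) hz hz'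
    have h2 : H ![x, y, z, z'] ≠ 0 := abs_pos.1 (hβ0.trans h1)
    have := (mul_eq_zero.1 d.symm).resolve_right h2
    linarith

/-- the orbit fills the vertical segment, with points whose second class is good -/
theorem vert {c : Fin 3 → Fin 3 → Fin 3 → K} {σ : K →+* ℝ} {a₀ b₀ a₁ b₁ a₂ b₂ : Fin 2 → ℝ}
    (h₁ : br a₁ b₁ ≠ 0) (h₂ : br a₂ b₂ ≠ 0) {δ δ' : ℝ} (hδ : 0 < δ) (hδ' : 0 < δ')
    (hbox : BoxS (cr c σ) a₀ b₀ a₁ b₁ a₂ b₂ δ δ') (hbad : (Bad (sw c)).Finite)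
    {X Y Z : Fin 2 → K} {x y z : ℝ} (hP : RP c σ a₀ b₀ a₁ b₁ a₂ b₂ X Y Z x y z) (hx : |x| ≤ δ)
    (hy : |y| < δ) (hz : |z| ≤ δ') (hg : Good c X) {t ε : ℝ} (ht : |t| ≤ δ) (hε : 0 < ε) :
    ∃ (Y' Z' : Fin 2 → K) (y' z' : ℝ), RP c σ a₀ b₀ a₁ b₁ a₂ b₂ X Y' Z' x y' z' ∧
      |y' - t| ≤ ε ∧ |y'| < δ ∧ |z'| ≤ δ' ∧ Good (sw c) Y' := by
  obtain ⟨U, V, hO, hU0, hV0⟩ := hg.2 Y Z hP.hY hP.hZ hP.hE
  have hRO := RO.of_orb2 hO σ (hg.1.sm σ)
  obtain ⟨p, hp, hpe⟩ := hP.hx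
  have hgf : (fun j k => σ (fib c X j k)) = fib (cr c σ) (p • (a₀ + x • b₀)) := by
    rw [fib_map', hpe]
    rfl
  rw [hgf] at hRO
  -- roots
  have hroot : ∀ y z : ℝ, |y| ≤ δ → |z| ≤ δ' →
      ff (fm (fib (cr c σ) (p • (a₀ + x • b₀))) a₁ b₁ a₂ b₂) y z = 0 →
      |z| ≤ δ' / 2 ∧ hh (fm (fib (cr c σ) (p • (a₀ + x • b₀))) a₁ b₁ a₂ b₂) y z z ≠ 0 := by
    intro y z hy hz h0
    rw [← G_frame, G_fib, E_smul_one] at h0
    have h1 := (mul_eq_zero.1 h0).resolve_left (pow_ne_zero 2 hp)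
    obtain ⟨r1, r2⟩ := hbox.root x y z hx hy hz h1
    refine ⟨r1, ?_⟩
    rw [← Pv_frame, ← PE_fib, PE_smul_one]
    exact mul_ne_zero (pow_ne_zero 2 hp) r2
  have hN0 : Near a₁ b₁ a₂ b₂ (fun n a => σ (U n a)) (fun n a => σ (V n a)) 0 y z := by
    constructor
    · change At a₁ b₁ (fun a => σ (U 0 a)) y
      rw [hU0]
      exact hP.hy
    · change At a₂ b₂ (fun a => σ (V 0 a)) z
      rw [hV0]
      exact hP.hz
  -- the bad values
  set Bd : Set ℝ := ⋃ w ∈ Bad (sw c), {s | At a₁ b₁ (fun i => σ (w i)) s} with hBd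
  have hBdf : Bd.Finite := by
    refine hbad.biUnion fun w _ => Set.Subsingleton.finite ?_
    intro s hs s' hs'
    exact (At.unique h₁ hs hs').symm
  set I : Set ℝ := Set.Ioo (max (t - ε) (-δ)) (min (t + ε) δ) with hI
  have hIne : max (t - ε) (-δ) < min (t + ε) δ := by
    have := abs_le.1 ht
    rw [max_lt_iff, lt_min_iff, lt_min_iff]
    refine ⟨⟨?_, ?_⟩, ?_, ?_⟩ <;> linarith
  obtain ⟨s, hsI, hsB⟩ := ((Set.Ioo_infinite hIne).sdiff hBdf).nonempty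
  have hopen : IsOpen (I \ Bd) := isOpen_Ioo.sdiff hBdf.isClosed
  obtain ⟨ρ, hρ, hball⟩ := Metric.isOpen_iff.1 hopen s ⟨hsI, hsB⟩
  have hsδ : |s| ≤ δ := by
    rw [abs_le]
    exact ⟨((le_max_right _ _).trans_lt hsI.1).le, (hsI.2.trans_le (min_le_right _ _)).le⟩
  obtain ⟨n, y', z', hn, h3, h4⟩ := hRO.fill h₁ h₂ hδ' hroot hN0 hy hz hsδ
    (show 0 < ρ / 2 by linarith)
  obtain ⟨hy'I, hy'B⟩ := hball (show y' ∈ Metric.ball s ρ by
    rw [Metric.mem_ball, Real.dist_eq]; linarith)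
  obtain ⟨q, hq, hqe⟩ := nrm_spec (hO.hU n)
  have hAt' : At a₁ b₁ (fun i => σ (nrm (U n) i)) y' := hn.1.map_smul σ hq hqe
  have hgood : Good (sw c) (nrm (U n)) := by
    refine good_of_not_bad fun hb => hy'B ?_
    rw [hBd, Set.mem_iUnion₂]
    exact ⟨_, hb, hAt'⟩
  have hnn : nrm (U n) ≠ 0 := by
    intro h0
    apply hO.hU n
    rw [hqe, h0, smul_zero]
  refine ⟨nrm (U n), V n, y', z', ⟨hP.hX, hnn, hO.hV n, ?_, hP.hx, hAt', hn.2⟩, ?_, ?_, h4,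
    hgood⟩
  · have e := hO.G_eq_zero n
    rw [G_fib] at e
    have e2 := E_smul c 1 q 1 X (nrm (U n)) (V n)
    rw [one_smul, one_smul, ← hqe, e] at e2
    have e3 : (1 : K) ^ 2 * q ^ 2 * 1 ^ 2 ≠ 0 := by
      simp [hq]
    exact (mul_eq_zero.1 e2.symm).resolve_left e3
  · rw [abs_le]
    have a1 := (le_max_left _ _).trans_lt hy'I.1
    have a2 := hy'I.2.trans_le (min_le_left _ _)
    constructor <;> linarith
  · rw [abs_lt]
    exact ⟨(le_max_right _ _).trans_lt hy'I.1, hy'I.2.trans_le (min_le_right _ _)⟩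

end surf

end Pool.Agent.W279.TriR
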